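import Pool.Agent.Lib.MP_2964cc_an.Mat

set_option autoImplicit false
open scoped ComplexOrder MatrixOrder
open Matrix

namespace Pool.Agent.MP2964cc

variable {n : Type} [Fintype n] [DecidableEq n]

/-- Congruence by a block column with an identity block. -/
theorem posDef_congr_fromRows {Q : Matrix (n ⊕ n) (n ⊕ n) ℂ} (hQ : Q.PosDef)
    (Y : Matrix n n ℂ) : (conjTranspose (fromRows Y (1 : Matrix n n ℂ)) * Q *
      fromRows Y (1 : Matrix n n ℂ)).PosDef := by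
  refine hQ.conjTranspose_mul_mul_same ?_
  intro x y hxy
  have h1 : (fromRows Y (1 : Matrix n n ℂ)) *ᵥ x = (fromRows Y 1) *ᵥ y := hxy
  rw [fromRows_mulVec, fromRows_mulVec] at h1
  have h2 := congrArg (fun f => f ∘ Sum.inr) h1
  simpa using h2

theorem diag_blocks_posDef {A D : Matrix n n ℂ} (hA : A.PosDef) (hD : D.PosDef) :
    (fromBlocks A 0 0 D).PosDef := by
  have : Invertible A := hA.isUnit.invertible
  have h1 : (fromBlocks A 0 (0 : Matrix n n ℂ)ᴴ D).PosSemidef := by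
    rw [PosDef.fromBlocks₁₁ _ _ hA]
    simpa using hD.posSemidef
  rw [conjTranspose_zero] at h1
  rw [h1.posDef_iff_isUnit, isUnit_iff_isUnit_det, det_fromBlocks_zero₂₁]
  exact ((isUnit_iff_isUnit_det _).1 hA.isUnit).mul ((isUnit_iff_isUnit_det _).1 hD.isUnit)

/-- `[[C, Δ], [Δ, Δ]] ≥ 0` when `0 ≤ Δ ≤ C`. -/
theorem schur_aux {C Δ : Matrix n n ℂ} (hC : C.PosDef) (hΔ : Δ.PosSemidef)
    (h : (C - Δ).PosSemidef) : (Δ - Δ * C⁻¹ * Δ).PosSemidef := by
  have : Invertible C := hC.isUnit.invertible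
  have h1 : (fromBlocks C Δ Δᴴ Δ).PosSemidef := by
    have e : fromBlocks C Δ Δᴴ Δ = (fromCols (1 : Matrix n n ℂ) (0 : Matrix n n ℂ))ᴴ * (C - Δ) *
        (fromCols (1 : Matrix n n ℂ) (0 : Matrix n n ℂ)) +
        (fromCols (1 : Matrix n n ℂ) (1 : Matrix n n ℂ))ᴴ * Δ *
        (fromCols (1 : Matrix n n ℂ) (1 : Matrix n n ℂ)) := by
      rw [conjTranspose_fromCols_eq_fromRows_conjTranspose, fromRows_mul, fromRows_mul_fromCols,
        conjTranspose_fromCols_eq_fromRows_conjTranspose, fromRows_mul, fromRows_mul_fromCols,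
        hΔ.isHermitian.eq]
      rw [fromBlocks_add]
      simp
    rw [e]
    exact (h.conjTranspose_mul_mul_same _).add (hΔ.conjTranspose_mul_mul_same _)
  rw [PosDef.fromBlocks₁₁ _ _ hC, hΔ.isHermitian.eq] at h1
  exact h1

/-- Truncated matrix moment problem on `[-1,1]`. -/
theorem moment {m0 m1 m2 : Matrix n n ℂ} (hQ : (fromBlocks m0 m1 m1 m2).PosDef)
    (h : (m0 - m2).PosSemidef) :
    ∃ (a : Matrix n (n ⊕ n) ℂ) (κ : n ⊕ n → ℝ), (∀ i, κ i ^ 2 ≤ 1) ∧ a * aᴴ = m0 ∧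
      a * diagonal (fun i => (κ i : ℂ)) * aᴴ = m1 ∧
      a * diagonal (fun i => (κ i : ℂ) ^ 2) * aᴴ = m2 := by
  have hm0 : m0.PosDef := by
    have h1 := hQ.submatrix (e := (Sum.inl : n → n ⊕ n)) Sum.inl_injective
    have h2 : (fromBlocks m0 m1 m1 m2).submatrix (Sum.inl : n → n ⊕ n) Sum.inl = m0 := by
      ext i j; simp
    rwa [h2] at h1
  obtain ⟨-, hm1, -, -⟩ := isHermitian_fromBlocks_iff.1 hQ.isHermitian
  have hm0d : IsUnit m0.det := (isUnit_iff_isUnit_det _).1 hm0.isUnit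
  have e0 : m0 * m0⁻¹ = 1 := mul_nonsing_inv _ hm0d
  have e0' : m0⁻¹ * m0 = 1 := nonsing_inv_mul _ hm0d
  have hm0iH : (m0⁻¹)ᴴ = m0⁻¹ := by rw [conjTranspose_nonsing_inv, hm0.isHermitian.eq]
  obtain ⟨Δ, hΔdef⟩ : ∃ Δ : Matrix n n ℂ, Δ = m2 - m1 * m0⁻¹ * m1 := ⟨_, rfl⟩
  have hΔ : Δ.PosDef := by
    have h1 := posDef_congr_fromRows hQ (-(m0⁻¹ * m1))
    have h2 : conjTranspose (fromRows (-(m0⁻¹ * m1)) (1 : Matrix n n ℂ)) * fromBlocks m0 m1 m1 m2 *
        fromRows (-(m0⁻¹ * m1)) (1 : Matrix n n ℂ) = Δ := by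
      rw [Matrix.mul_assoc, fromBlocks_mul_fromRows,
        conjTranspose_fromRows_eq_fromCols_conjTranspose, fromCols_mul_fromRows]
      rw [mul_neg, mul_neg, ← mul_assoc, e0, one_mul, mul_one, mul_one, neg_add_cancel, mul_zero,
        zero_add, conjTranspose_one, one_mul, hΔdef]
      rw [mul_assoc]; abel
    rwa [h2] at h1
  obtain ⟨P, hPdef⟩ : ∃ P : Matrix n n ℂ, P = m0 + m1 := ⟨_, rfl⟩
  obtain ⟨M, hMdef⟩ : ∃ M : Matrix n n ℂ, M = m0 - m1 := ⟨_, rfl⟩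
  have hP : P.PosDef := by
    have h1 := posDef_congr_fromRows hQ 1
    have h2 : conjTranspose (fromRows (1 : Matrix n n ℂ) (1 : Matrix n n ℂ)) *
        fromBlocks m0 m1 m1 m2 *
        fromRows (1 : Matrix n n ℂ) (1 : Matrix n n ℂ) = m0 + m1 + (m1 + m2) := by
      rw [Matrix.mul_assoc, fromBlocks_mul_fromRows,
        conjTranspose_fromRows_eq_fromCols_conjTranspose, fromCols_mul_fromRows]
      simp
    rw [h2] at h1
    have h3 : P = (1 / 2 : ℂ) • ((m0 + m1 + (m1 + m2)) + (m0 - m2)) := by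
      rw [hPdef]
      ext i j
      simp
      ring
    rw [h3]
    exact (h1.add_posSemidef h).smul (by norm_num)
  have hM : M.PosDef := by
    have h1 := posDef_congr_fromRows hQ (-1)
    have h2 : conjTranspose (fromRows (-1 : Matrix n n ℂ) (1 : Matrix n n ℂ)) *
        fromBlocks m0 m1 m1 m2 *
        fromRows (-1 : Matrix n n ℂ) (1 : Matrix n n ℂ) = m0 - m1 + (m2 - m1) := by
      rw [Matrix.mul_assoc, fromBlocks_mul_fromRows,
        conjTranspose_fromRows_eq_fromCols_conjTranspose, fromCols_mul_fromRows]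
      simp
      abel
    rw [h2] at h1
    have h3 : M = (1 / 2 : ℂ) • ((m0 - m1 + (m2 - m1)) + (m0 - m2)) := by
      rw [hMdef]
      ext i j
      simp
      ring
    rw [h3]
    exact (h1.add_posSemidef h).smul (by norm_num)
  obtain ⟨C, hCdef⟩ : ∃ C : Matrix n n ℂ, C = m0 - m1 * m0⁻¹ * m1 := ⟨_, rfl⟩
  have hC : C.PosDef := by
    have : C = Δ + (m0 - m2) := by rw [hCdef, hΔdef]; abel
    rw [this]
    exact hΔ.add_posSemidef h
  have hPd : IsUnit P.det := (isUnit_iff_isUnit_det _).1 hP.isUnit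
  have hMd : IsUnit M.det := (isUnit_iff_isUnit_det _).1 hM.isUnit
  have eP : P⁻¹ * P = 1 := nonsing_inv_mul _ hPd
  have eM : M⁻¹ * M = 1 := nonsing_inv_mul _ hMd
  have hCP : C = P * (m0⁻¹ * M) := by
    rw [hPdef, hMdef, hCdef]
    rw [add_mul, mul_sub, mul_sub, mul_sub, ← mul_assoc, ← mul_assoc, e0, one_mul, one_mul, e0',
      mul_one, ← mul_assoc]
    abel
  have hCM : C = M * (m0⁻¹ * P) := by
    rw [hPdef, hMdef, hCdef]
    rw [sub_mul, mul_add, mul_add, mul_add, ← mul_assoc, ← mul_assoc, e0, one_mul, one_mul, e0',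
      mul_one, ← mul_assoc]
    abel
  have hCi : C⁻¹ = (1 / 2 : ℂ) • (P⁻¹ + M⁻¹) := by
    refine inv_eq_left_inv ?_
    have h1 : P⁻¹ * C = m0⁻¹ * M := by rw [hCP, ← mul_assoc, eP, one_mul]
    have h2 : M⁻¹ * C = m0⁻¹ * P := by rw [hCM, ← mul_assoc, eM, one_mul]
    rw [Matrix.smul_mul, add_mul, h1, h2, ← mul_add, hPdef, hMdef]
    have h3 : m0 - m1 + (m0 + m1) = (2 : ℂ) • m0 := by
      rw [two_smul]; abel
    rw [h3, Matrix.mul_smul, e0', smul_smul]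
    norm_num
  have hkey : (Δ - Δ * C⁻¹ * Δ).PosSemidef := by
    refine schur_aux hC hΔ.posSemidef ?_
    have : C - Δ = m0 - m2 := by rw [hCdef, hΔdef]; abel
    rw [this]
    exact h
  obtain ⟨W, hWdef⟩ : ∃ W : Matrix n n ℂ, W = (1 / 2 : ℂ) • (Δ * (P⁻¹ - M⁻¹) * Δ) := ⟨_, rfl⟩
  have hPiH : (P⁻¹)ᴴ = P⁻¹ := by rw [conjTranspose_nonsing_inv, hP.isHermitian.eq]
  have hMiH : (M⁻¹)ᴴ = M⁻¹ := by rw [conjTranspose_nonsing_inv, hM.isHermitian.eq]
  have hWH : W.IsHermitian := by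
    unfold Matrix.IsHermitian
    rw [hWdef, conjTranspose_smul, conjTranspose_mul, conjTranspose_mul, conjTranspose_sub, hPiH,
      hMiH, hΔ.isHermitian.eq, mul_assoc]
    congr 1
    simp
  obtain ⟨G0, hG0⟩ : ∃ G0 : Matrix (n ⊕ n) (n ⊕ n) ℂ, G0 = fromBlocks m0 0 0 Δ := ⟨_, rfl⟩
  obtain ⟨G1, hG1⟩ : ∃ G1 : Matrix (n ⊕ n) (n ⊕ n) ℂ, G1 = fromBlocks m1 Δ Δ W := ⟨_, rfl⟩
  have hG0pd : G0.PosDef := hG0 ▸ diag_blocks_posDef hm0 hΔ
  have hG1H : G1.IsHermitian :=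
    hG1 ▸ IsHermitian.fromBlocks hm1 hΔ.isHermitian.eq hWH
  have hplus : (G0 + G1).PosSemidef := by
    have : Invertible P := hP.isUnit.invertible
    have e : G0 + G1 = fromBlocks P Δ Δᴴ (Δ + W) := by
      rw [hG0, hG1, fromBlocks_add, hΔ.isHermitian.eq]
      simp [hPdef]
    rw [e, PosDef.fromBlocks₁₁ _ _ hP, hΔ.isHermitian.eq]
    have e2 : Δ + W - Δ * P⁻¹ * Δ = Δ - Δ * C⁻¹ * Δ := by
      rw [hCi, hWdef, Matrix.mul_smul, Matrix.smul_mul, mul_sub, mul_add, sub_mul, add_mul]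
      ext i j
      simp only [Matrix.sub_apply, Matrix.add_apply, Matrix.smul_apply, smul_eq_mul]
      ring
    rw [e2]
    exact hkey
  have hminus : (G0 - G1).PosSemidef := by
    have : Invertible M := hM.isUnit.invertible
    have e : G0 - G1 = fromBlocks M (-Δ) (-Δ)ᴴ (Δ - W) := by
      rw [hG0, hG1, sub_eq_add_neg, fromBlocks_neg, fromBlocks_add, conjTranspose_neg,
        hΔ.isHermitian.eq]
      simp [hMdef, sub_eq_add_neg]
    rw [e, PosDef.fromBlocks₁₁ _ _ hM, conjTranspose_neg, hΔ.isHermitian.eq]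
    have e2 : Δ - W - -Δ * M⁻¹ * -Δ = Δ - Δ * C⁻¹ * Δ := by
      rw [hCi, hWdef, Matrix.mul_smul, Matrix.smul_mul, mul_sub, mul_add, sub_mul, add_mul]
      ext i j
      simp only [Matrix.sub_apply, Matrix.add_apply, Matrix.smul_apply, smul_eq_mul, neg_mul,
        mul_neg, neg_neg]
      ring
    rw [e2]
    exact hkey
  obtain ⟨L, κ, hL, hL0, hL1⟩ := simdiag hG0pd hG1H
  have hk1 : ∀ i, 0 ≤ 1 + κ i := by
    have e : G0 + G1 = L * diagonal (fun i => ((1 + κ i : ℝ) : ℂ)) * star L := by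
      rw [hL0, hL1, star_eq_conjTranspose]
      have : diagonal (fun i => ((1 + κ i : ℝ) : ℂ)) = 1 + diagonal (fun i => (κ i : ℂ)) := by
        rw [← diagonal_one, diagonal_add]
        simp
      rw [this, mul_add, mul_one, add_mul]
    rw [e, hL.posSemidef_star_right_conjugate_iff] at hplus
    intro i
    have := (posSemidef_diagonal_iff.1 hplus) i
    exact_mod_cast this
  have hk2 : ∀ i, 0 ≤ 1 - κ i := by
    have e : G0 - G1 = L * diagonal (fun i => ((1 - κ i : ℝ) : ℂ)) * star L := by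
      rw [hL0, hL1, star_eq_conjTranspose]
      have : diagonal (fun i => ((1 - κ i : ℝ) : ℂ)) = 1 - diagonal (fun i => (κ i : ℂ)) := by
        rw [← diagonal_one, diagonal_sub]
        simp
      rw [this, mul_sub, mul_one, sub_mul]
    rw [e, hL.posSemidef_star_right_conjugate_iff] at hminus
    intro i
    have := (posSemidef_diagonal_iff.1 hminus) i
    exact_mod_cast this
  have hLd : IsUnit L.det := (isUnit_iff_isUnit_det _).1 hL
  have hLi : L * L⁻¹ = 1 := mul_nonsing_inv _ hLd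
  have hiL : L⁻¹ * L = 1 := nonsing_inv_mul _ hLd
  -- inverse of G0
  have hΔd : IsUnit Δ.det := (isUnit_iff_isUnit_det _).1 hΔ.isUnit
  have eΔ : Δ * Δ⁻¹ = 1 := mul_nonsing_inv _ hΔd
  have eΔ' : Δ⁻¹ * Δ = 1 := nonsing_inv_mul _ hΔd
  have hG2 : L * diagonal (fun i => (κ i : ℂ) ^ 2) * Lᴴ
      = G1 * fromBlocks m0⁻¹ 0 0 Δ⁻¹ * G1 := by
    have hG0i : fromBlocks m0⁻¹ 0 0 Δ⁻¹ * G0 = 1 := by
      rw [hG0, fromBlocks_multiply]
      simp [e0', eΔ']
    have h4 : Lᴴ * (fromBlocks m0⁻¹ 0 0 Δ⁻¹ * L) = 1 := by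
      have h5 : fromBlocks m0⁻¹ 0 0 Δ⁻¹ * L * Lᴴ = 1 := by
        rw [mul_assoc, ← hL0, hG0i]
      have h6 : (fromBlocks m0⁻¹ 0 0 Δ⁻¹ * L) * Lᴴ = 1 := h5
      exact mul_eq_one_comm.1 h6
    have h7 : diagonal (fun i => (κ i : ℂ) ^ 2)
        = diagonal (fun i => (κ i : ℂ)) * diagonal (fun i => (κ i : ℂ)) := by
      rw [diagonal_mul_diagonal]
      congr 1
      ext i
      ring
    calc L * diagonal (fun i => (κ i : ℂ) ^ 2) * Lᴴ
        = L * diagonal (fun i => (κ i : ℂ)) * 1 * diagonal (fun i => (κ i : ℂ)) * Lᴴ := by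
          rw [h7]; simp only [mul_assoc, mul_one]
      _ = L * diagonal (fun i => (κ i : ℂ)) * (Lᴴ * (fromBlocks m0⁻¹ 0 0 Δ⁻¹ * L)) *
          diagonal (fun i => (κ i : ℂ)) * Lᴴ := by rw [h4]
      _ = (L * diagonal (fun i => (κ i : ℂ)) * Lᴴ) * fromBlocks m0⁻¹ 0 0 Δ⁻¹ *
          (L * diagonal (fun i => (κ i : ℂ)) * Lᴴ) := by simp only [mul_assoc]
      _ = _ := by rw [← hL1]
  have hG2' : G1 * fromBlocks m0⁻¹ 0 0 Δ⁻¹ * G1 =
      fromBlocks m2 (m1 * m0⁻¹ * Δ + W) (Δ * m0⁻¹ * m1 + W)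
        (Δ * m0⁻¹ * Δ + W * Δ⁻¹ * W) := by
    rw [hG1, fromBlocks_multiply, fromBlocks_multiply]
    simp only [mul_zero, zero_add, add_zero]
    congr 1
    · rw [eΔ, one_mul, hΔdef]; abel
    · rw [eΔ, one_mul]
    · rw [mul_assoc W, eΔ', mul_one]
  have hblock : ∀ D : Matrix (n ⊕ n) (n ⊕ n) ℂ,
      (L.submatrix Sum.inl id) * D * (L.submatrix Sum.inl id)ᴴ
        = (L * D * Lᴴ).submatrix Sum.inl Sum.inl := by
    intro D
    ext i j
    simp [mul_apply, submatrix_apply, conjTranspose_apply]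
  refine ⟨L.submatrix Sum.inl id, κ, ?_, ?_, ?_, ?_⟩
  · intro i
    nlinarith [hk1 i, hk2 i]
  · have h1 := hblock 1
    rw [Matrix.mul_one, Matrix.mul_one, ← hL0] at h1
    rw [h1, hG0]
    ext i j
    simp
  · rw [hblock, ← hL1, hG1]
    ext i j
    simp
  · rw [hblock, hG2, hG2']
    ext i j
    simp

end Pool.Agent.MP2964cc
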