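import Pool.Agent.Lib.MP_2964cc_an.Sep
import Pool.Agent.Lib.MP_2964cc_an.Moment

set_option autoImplicit false
open scoped ComplexOrder MatrixOrder
open Matrix

namespace Pool.Agent.MP2964cc

variable {n : Type} [Fintype n] [DecidableEq n]

/-- A contraction has contractive adjoint. -/
theorem contraction_adjoint {m : Type} [Fintype m] [DecidableEq m] (b : Matrix m n ℂ)
    (h : (1 - b * bᴴ).PosSemidef) : (1 - bᴴ * b).PosSemidef := by
  have h1 : (fromBlocks (1 : Matrix m m ℂ) b bᴴ (1 : Matrix n n ℂ)).PosSemidef := by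
    have : Invertible (1 : Matrix n n ℂ) := invertibleOne
    rw [PosDef.fromBlocks₂₂ _ _ PosDef.one, inv_one, Matrix.mul_one]
    exact h
  have : Invertible (1 : Matrix m m ℂ) := invertibleOne
  rw [PosDef.fromBlocks₁₁ _ _ PosDef.one, inv_one, Matrix.mul_one] at h1
  exact h1

/-- The main factorisation. -/
theorem factor {A B : Matrix n n ℂ} {r : ℝ} (hr : r < 1)
    (H : ∀ p q : ℝ, 0 ≤ p → 0 ≤ q → p ^ 2 + q ^ 2 = 1 →
      ((r : ℂ) • (1 : Matrix n n ℂ) -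
        ((p : ℂ) • A + (q : ℂ) • B) * ((p : ℂ) • A + (q : ℂ) • B)ᴴ).PosSemidef) :
    ∃ (a : Matrix n (n ⊕ n) ℂ) (b : Matrix (n ⊕ n) n ℂ) (κ : n ⊕ n → ℝ),
      (∀ i, κ i ^ 2 ≤ 1) ∧
      A = a * diagonal (fun i => (1 + Complex.I * κ i) / (Real.sqrt (1 + κ i ^ 2) : ℂ)) * b ∧
      B = a * diagonal (fun i => (-1 + Complex.I * κ i) / (Real.sqrt (1 + κ i ^ 2) : ℂ)) * b ∧
      (1 - a * aᴴ).PosSemidef ∧ (1 - bᴴ * b).PosSemidef := by
  obtain ⟨e, he⟩ : ∃ e : ℝ, e = (1 - r) / 2 := ⟨_, rfl⟩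
  have he0 : 0 < e := by rw [he]; linarith
  have hA : ((r : ℂ) • (1 : Matrix n n ℂ) - A * Aᴴ).PosSemidef := by
    have := H 1 0 zero_le_one le_rfl (by norm_num)
    simpa using this
  have hB : ((r : ℂ) • (1 : Matrix n n ℂ) - B * Bᴴ).PosSemidef := by
    have := H 0 1 le_rfl zero_le_one (by norm_num)
    simpa using this
  obtain ⟨P0, hP0⟩ : ∃ P0 : Matrix n n ℂ, P0 = ((1 - e : ℝ) : ℂ) • (1 : Matrix n n ℂ) - A * Aᴴ :=
    ⟨_, rfl⟩
  obtain ⟨P2, hP2⟩ : ∃ P2 : Matrix n n ℂ, P2 = ((1 - e : ℝ) : ℂ) • (1 : Matrix n n ℂ) - B * Bᴴ :=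
    ⟨_, rfl⟩
  obtain ⟨P1, hP1⟩ : ∃ P1 : Matrix n n ℂ, P1 = -(A * Bᴴ + B * Aᴴ) - (e : ℂ) • (1 : Matrix n n ℂ) :=
    ⟨_, rfl⟩
  have hP0pd : P0.PosDef := by
    have h1 : P0 = ((r : ℂ) • (1 : Matrix n n ℂ) - A * Aᴴ) + (e : ℂ) • (1 : Matrix n n ℂ) := by
      have : ((1 - e : ℝ) : ℂ) = (r : ℂ) + (e : ℂ) := by
        rw [he]; push_cast; ring
      rw [hP0, this, add_smul]; abel
    rw [h1]
    exact PosDef.posSemidef_add hA (PosDef.one.smul (by exact_mod_cast he0))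
  have hP2pd : P2.PosDef := by
    have h1 : P2 = ((r : ℂ) • (1 : Matrix n n ℂ) - B * Bᴴ) + (e : ℂ) • (1 : Matrix n n ℂ) := by
      have : ((1 - e : ℝ) : ℂ) = (r : ℂ) + (e : ℂ) := by
        rw [he]; push_cast; ring
      rw [hP2, this, add_smul]; abel
    rw [h1]
    exact PosDef.posSemidef_add hB (PosDef.one.smul (by exact_mod_cast he0))
  have hP1H : P1.IsHermitian := by
    unfold Matrix.IsHermitian
    rw [hP1]
    simp [add_comm]
  have hPt : ∀ t : ℝ, 0 < t → (P0 + (t : ℂ) • P1 + ((t : ℂ) ^ 2) • P2).PosSemidef := by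
    intro t ht
    have hs : 0 < 1 + t ^ 2 := by positivity
    set w : ℝ := Real.sqrt (1 + t ^ 2) with hw
    have hw0 : 0 < w := Real.sqrt_pos.2 hs
    have hw2 : w ^ 2 = 1 + t ^ 2 := Real.sq_sqrt hs.le
    have h1 := H (1 / w) (t / w) (by positivity) (by positivity) (by
      field_simp
      linarith)
    have h2 := h1.smul (α := ℂ) (a := ((w ^ 2 : ℝ) : ℂ)) (by exact_mod_cast (by positivity : (0:ℝ) ≤ w ^ 2))
    have h3 : ((w ^ 2 : ℝ) : ℂ) • ((r : ℂ) • (1 : Matrix n n ℂ) -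
        (((1 / w : ℝ) : ℂ) • A + ((t / w : ℝ) : ℂ) • B) *
        (((1 / w : ℝ) : ℂ) • A + ((t / w : ℝ) : ℂ) • B)ᴴ) =
        ((r * (1 + t ^ 2) : ℝ) : ℂ) • (1 : Matrix n n ℂ) - (A + (t : ℂ) • B) * (A + (t : ℂ) • B)ᴴ := by
      have h4 : ((1 / w : ℝ) : ℂ) • A + ((t / w : ℝ) : ℂ) • B =
          ((1 / w : ℝ) : ℂ) • (A + (t : ℂ) • B) := by
        rw [smul_add, smul_smul]
        congr 2
        push_cast
        ring
      rw [h4, conjTranspose_smul, Matrix.smul_mul, Matrix.mul_smul, smul_smul, smul_sub, smul_smul,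
        smul_smul]
      congr 1
      · congr 1
        rw [hw2]; push_cast; ring
      · have h5 : ((w ^ 2 : ℝ) : ℂ) * (((1 / w : ℝ) : ℂ) * star ((1 / w : ℝ) : ℂ)) = 1 := by
          have : (w : ℂ) ≠ 0 := by exact_mod_cast hw0.ne'
          have h6 : star ((1 / w : ℝ) : ℂ) = ((1 / w : ℝ) : ℂ) := Complex.conj_ofReal _
          rw [h6]
          push_cast
          field_simp
        rw [h5, one_smul]
    rw [h3] at h2
    have h5 : P0 + (t : ℂ) • P1 + ((t : ℂ) ^ 2) • P2 =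
        (((r * (1 + t ^ 2) : ℝ) : ℂ) • (1 : Matrix n n ℂ) -
          (A + (t : ℂ) • B) * (A + (t : ℂ) • B)ᴴ) +
        ((e * (1 + t ^ 2 - t) : ℝ) : ℂ) • (1 : Matrix n n ℂ) := by
      have hr' : r = 1 - 2 * e := by rw [he]; ring
      rw [hP0, hP1, hP2, hr', conjTranspose_add, conjTranspose_smul]
      have h6 : star (t : ℂ) = (t : ℂ) := Complex.conj_ofReal _
      rw [h6]
      simp only [mul_add, add_mul, Matrix.smul_mul, Matrix.mul_smul]
      ext i j
      simp only [Matrix.sub_apply, Matrix.add_apply, Matrix.smul_apply, smul_eq_mul,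
        Matrix.neg_apply]
      push_cast
      ring
    rw [h5]
    refine h2.add (PosSemidef.one.smul ?_)
    have : 0 ≤ e * (1 + t ^ 2 - t) := mul_nonneg he0.le (by nlinarith [sq_nonneg (t - 1 / 2)])
    exact_mod_cast this
  obtain ⟨K, hK1, hK2⟩ := step1 hP0pd hP2pd hP1H hPt
  obtain ⟨T, hT⟩ : ∃ T : Matrix n n ℂ, T = A * Bᴴ + K := ⟨_, rfl⟩
  have hTH : Tᴴ = B * Aᴴ + Kᴴ := by rw [hT]; simp
  obtain ⟨m0, hm0⟩ : ∃ m0 : Matrix n n ℂ, m0 = (1 / 4 : ℂ) • ((2 : ℂ) • 1 - (T + Tᴴ)) := ⟨_, rfl⟩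
  obtain ⟨m2, hm2⟩ : ∃ m2 : Matrix n n ℂ, m2 = (1 / 4 : ℂ) • ((2 : ℂ) • 1 + (T + Tᴴ)) := ⟨_, rfl⟩
  obtain ⟨m1, hm1⟩ : ∃ m1 : Matrix n n ℂ, m1 = (Complex.I / 4 : ℂ) • (T - Tᴴ) := ⟨_, rfl⟩
  obtain ⟨S0, hS0⟩ : ∃ S0 : Matrix n n ℂ, S0 = (1 / 2 : ℂ) • (A - B) := ⟨_, rfl⟩
  obtain ⟨S1, hS1⟩ : ∃ S1 : Matrix n n ℂ, S1 = (-Complex.I / 2 : ℂ) • (A + B) := ⟨_, rfl⟩
  -- the 2n x 2n matrix
  obtain ⟨MM, hMM⟩ : ∃ MM : Matrix (n ⊕ n) (n ⊕ n) ℂ, MM = fromBlocks (1 - A * Aᴴ) K Kᴴ (1 - B * Bᴴ) :=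
    ⟨_, rfl⟩
  have hMMpd : MM.PosDef := by
    have h1 : MM = fromBlocks P0 K Kᴴ P2 + (e : ℂ) • (1 : Matrix (n ⊕ n) (n ⊕ n) ℂ) := by
      rw [hMM, hP0, hP2, ← fromBlocks_one, fromBlocks_smul, fromBlocks_add]
      congr 1
      · ext i j
        simp only [Matrix.sub_apply, Matrix.add_apply, Matrix.smul_apply, smul_eq_mul]
        push_cast
        ring
      · simp
      · simp
      · ext i j
        simp only [Matrix.sub_apply, Matrix.add_apply, Matrix.smul_apply, smul_eq_mul]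
        push_cast
        ring
    rw [h1]
    exact PosDef.posSemidef_add hK1 (PosDef.one.smul (by exact_mod_cast he0))
  obtain ⟨J, hJ⟩ : ∃ J : Matrix (n ⊕ n) (n ⊕ n) ℂ, J = fromBlocks 1 (Complex.I • 1) (-1) (Complex.I • 1) :=
    ⟨_, rfl⟩
  have hJJ : J * Jᴴ = (2 : ℂ) • 1 := by
    rw [hJ, fromBlocks_conjTranspose, fromBlocks_multiply, ← fromBlocks_one, fromBlocks_smul]
    congr 1
    · ext i j
      simp [Matrix.add_apply, smul_smul]
      ring
    · ext i j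
      simp [Matrix.add_apply, smul_smul]
    · ext i j
      simp [Matrix.add_apply, smul_smul]
    · ext i j
      simp [Matrix.add_apply, smul_smul]
      ring
  have hJu : IsUnit J := by
    refine IsUnit.of_mul_eq_one ((1 / 2 : ℂ) • Jᴴ) ?_
    rw [Matrix.mul_smul, hJJ, smul_smul]
    norm_num
  obtain ⟨G, hG⟩ : ∃ G : Matrix (n ⊕ n) n ℂ, G = fromRows S0 S1 := ⟨_, rfl⟩
  have hQG : fromBlocks m0 m1 m1 m2 - G * Gᴴ = (1 / 4 : ℂ) • (Jᴴ * MM * J) := by
    have e1 : G * Gᴴ = fromBlocks (S0 * S0ᴴ) (S0 * S1ᴴ) (S1 * S0ᴴ) (S1 * S1ᴴ) := by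
      rw [hG, conjTranspose_fromRows_eq_fromCols_conjTranspose, fromRows_mul_fromCols]
    have e2 : Jᴴ * MM * J = fromBlocks
        ((1 - A * Aᴴ) + (1 - B * Bᴴ) - K - Kᴴ)
        (Complex.I • ((1 - A * Aᴴ) - (1 - B * Bᴴ) + K - Kᴴ))
        (Complex.I • (-(1 - A * Aᴴ) + (1 - B * Bᴴ) + K - Kᴴ))
        ((1 - A * Aᴴ) + (1 - B * Bᴴ) + K + Kᴴ) := by
      rw [hJ, hMM, fromBlocks_conjTranspose, fromBlocks_multiply, fromBlocks_multiply]
      congr 1
      · ext i j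
        simp [Matrix.add_apply, mul_sub]
        ring
      · ext i j
        simp [Matrix.add_apply, mul_sub]
        ring
      · ext i j
        simp [Matrix.add_apply, mul_sub]
        ring
      · ext i j
        simp [Matrix.add_apply, smul_smul, mul_sub, ← mul_assoc]
        ring
    rw [e1, e2, sub_eq_add_neg, fromBlocks_neg, fromBlocks_add, fromBlocks_smul]
    rw [hm0, hm1, hm2, hS0, hS1, hTH, hT]
    congr 1
    · ext i j
      simp [Matrix.add_apply, sub_mul, mul_sub, mul_add]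
      ring
    · ext i j
      simp [Matrix.add_apply, smul_smul, sub_mul, mul_sub, mul_add]
      ring
    · ext i j
      simp [Matrix.add_apply, mul_sub, add_mul, mul_add]
      ring
    · ext i j
      simp [Matrix.add_apply, smul_smul, mul_sub, add_mul, mul_add]
      ring_nf
      rw [Complex.I_sq]
      ring
  have hQGpd : (fromBlocks m0 m1 m1 m2 - G * Gᴴ).PosDef := by
    rw [hQG]
    refine PosDef.smul ?_ (by norm_num)
    have := (hJu.posDef_star_left_conjugate_iff (x := MM)).2 hMMpd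
    simpa [star_eq_conjTranspose] using this
  have hQpd : (fromBlocks m0 m1 m1 m2).PosDef := by
    have h1 := hQGpd.add_posSemidef (posSemidef_self_mul_conjTranspose G)
    simpa using h1
  have hm02 : (m0 - m2).PosSemidef := by
    have h1 : m0 - m2 = (1 / 2 : ℂ) • ((P1 - (K + Kᴴ)) + (e : ℂ) • (1 : Matrix n n ℂ)) := by
      rw [hm0, hm2, hP1, hTH, hT]
      ext i j
      simp only [Matrix.sub_apply, Matrix.add_apply, Matrix.smul_apply, smul_eq_mul,
        Matrix.neg_apply]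
      ring
    rw [h1]
    have h2 : (0 : ℂ) ≤ 1 / 2 := by
      rw [Complex.le_def]
      constructor <;> norm_num
    exact (hK2.add (PosSemidef.one.smul (by exact_mod_cast he0.le))).smul h2
  obtain ⟨a', κ, hκ, ha0, ha1, ha2⟩ := moment hQpd hm02
  obtain ⟨F, hF⟩ : ∃ F : Matrix (n ⊕ n) (n ⊕ n) ℂ,
    F = fromRows a' (a' * diagonal (fun i => (κ i : ℂ))) := ⟨_, rfl⟩
  have hdk : (diagonal (fun i => (κ i : ℂ)))ᴴ = diagonal (fun i => (κ i : ℂ)) := by
    rw [diagonal_conjTranspose]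
    congr 1
    ext i
    simp
  have hdk2 : diagonal (fun i => (κ i : ℂ)) * diagonal (fun i => (κ i : ℂ)) =
      diagonal (fun i => (κ i : ℂ) ^ 2) := by
    rw [diagonal_mul_diagonal]
    congr 1
    ext i
    ring
  have hFF : F * Fᴴ = fromBlocks m0 m1 m1 m2 := by
    rw [hF, conjTranspose_fromRows_eq_fromCols_conjTranspose, fromRows_mul_fromCols,
      conjTranspose_mul, hdk]
    congr 1
    · rw [← Matrix.mul_assoc, ha1]
    · calc a' * diagonal (fun i => (κ i : ℂ)) * (diagonal (fun i => (κ i : ℂ)) * a'ᴴ)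
          = a' * (diagonal (fun i => (κ i : ℂ)) * diagonal (fun i => (κ i : ℂ))) * a'ᴴ := by
            simp only [Matrix.mul_assoc]
        _ = m2 := by rw [hdk2, ha2]
  have hFu : IsUnit F := by
    have h1 : IsUnit (F * Fᴴ) := hFF ▸ hQpd.isUnit
    rw [Matrix.isUnit_iff_isUnit_det, Matrix.det_mul] at h1
    rw [Matrix.isUnit_iff_isUnit_det]
    exact isUnit_of_mul_isUnit_left h1
  have hFd : IsUnit F.det := (isUnit_iff_isUnit_det _).1 hFu
  have hFi : F * F⁻¹ = 1 := mul_nonsing_inv _ hFd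
  have hiF : F⁻¹ * F = 1 := nonsing_inv_mul _ hFd
  obtain ⟨b, hb⟩ : ∃ b : Matrix (n ⊕ n) n ℂ, b = F⁻¹ * G := ⟨_, rfl⟩
  have hFb : F * b = G := by rw [hb, ← Matrix.mul_assoc, hFi, Matrix.one_mul]
  have hbb : (1 - b * bᴴ).PosSemidef := by
    have h1 : 1 - b * bᴴ = F⁻¹ * (fromBlocks m0 m1 m1 m2 - G * Gᴴ) * (F⁻¹)ᴴ := by
      have h2 : Fᴴ * (F⁻¹)ᴴ = 1 := by rw [← conjTranspose_mul, hiF, conjTranspose_one]
      rw [mul_sub, sub_mul, ← hFF, hb, conjTranspose_mul]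
      congr 1
      · calc (1 : Matrix (n ⊕ n) (n ⊕ n) ℂ) = (F⁻¹ * F) * (Fᴴ * (F⁻¹)ᴴ) := by
              rw [hiF, h2, one_mul]
          _ = _ := by simp only [Matrix.mul_assoc]
      · simp only [Matrix.mul_assoc]
    rw [h1]
    exact hQGpd.posSemidef.mul_mul_conjTranspose_same _
  have hS : a' * b = S0 ∧ a' * diagonal (fun i => (κ i : ℂ)) * b = S1 := by
    rw [hF, hG, fromRows_mul] at hFb
    exact (fromRows_ext_iff _ _ _ _).1 hFb
  obtain ⟨hSa, hSb⟩ := hS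
  have hsq : ∀ i, 0 < Real.sqrt (1 + κ i ^ 2) := fun i => Real.sqrt_pos.2 (by positivity)
  refine ⟨a' * diagonal (fun i => (Real.sqrt (1 + κ i ^ 2) : ℂ)), b, κ, hκ, ?_, ?_, ?_,
    contraction_adjoint b hbb⟩
  · have h1 : a' * diagonal (fun i => (Real.sqrt (1 + κ i ^ 2) : ℂ)) *
        diagonal (fun i => (1 + Complex.I * κ i) / (Real.sqrt (1 + κ i ^ 2) : ℂ)) * b
        = a' * (1 + Complex.I • diagonal (fun i => (κ i : ℂ))) * b := by
      rw [Matrix.mul_assoc a', diagonal_mul_diagonal]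
      congr 2
      rw [← diagonal_one, ← diagonal_smul, diagonal_add]
      congr 1
      ext i
      have : (Real.sqrt (1 + κ i ^ 2) : ℂ) ≠ 0 := by exact_mod_cast (hsq i).ne'
      rw [mul_div_cancel₀ _ this]
      simp
    rw [h1, Matrix.mul_add, Matrix.add_mul, Matrix.mul_one, Matrix.mul_smul, Matrix.smul_mul, hSa,
      hSb, hS0, hS1]
    ext i j
    simp only [Matrix.sub_apply, Matrix.add_apply, Matrix.smul_apply, smul_eq_mul]
    ring_nf
    rw [Complex.I_sq]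
    ring
  · have h1 : a' * diagonal (fun i => (Real.sqrt (1 + κ i ^ 2) : ℂ)) *
        diagonal (fun i => (-1 + Complex.I * κ i) / (Real.sqrt (1 + κ i ^ 2) : ℂ)) * b
        = a' * (-1 + Complex.I • diagonal (fun i => (κ i : ℂ))) * b := by
      rw [Matrix.mul_assoc a', diagonal_mul_diagonal]
      congr 2
      rw [← diagonal_one, ← diagonal_smul, diagonal_neg, diagonal_add]
      congr 1
      ext i
      have : (Real.sqrt (1 + κ i ^ 2) : ℂ) ≠ 0 := by exact_mod_cast (hsq i).ne'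
      rw [mul_div_cancel₀ _ this]
      simp
    rw [h1, Matrix.mul_add, Matrix.add_mul, Matrix.mul_neg, Matrix.mul_one, Matrix.neg_mul,
      Matrix.mul_smul, Matrix.smul_mul, hSa, hSb, hS0, hS1]
    ext i j
    simp only [Matrix.sub_apply, Matrix.add_apply, Matrix.smul_apply, smul_eq_mul,
      Matrix.neg_apply]
    ring_nf
    rw [Complex.I_sq]
    ring
  · have h1 : a' * diagonal (fun i => (Real.sqrt (1 + κ i ^ 2) : ℂ)) *
        (a' * diagonal (fun i => (Real.sqrt (1 + κ i ^ 2) : ℂ)))ᴴ = 1 := by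
      have h2 : (diagonal (fun i => (Real.sqrt (1 + κ i ^ 2) : ℂ)))ᴴ
          = diagonal (fun i => (Real.sqrt (1 + κ i ^ 2) : ℂ)) := by
        rw [diagonal_conjTranspose]
        congr 1
        ext i
        simp
      rw [conjTranspose_mul, h2, Matrix.mul_assoc, ← Matrix.mul_assoc (diagonal _),
        diagonal_mul_diagonal]
      have h3 : diagonal (fun i => (Real.sqrt (1 + κ i ^ 2) : ℂ) * (Real.sqrt (1 + κ i ^ 2) : ℂ))
          = 1 + diagonal (fun i => (κ i : ℂ) ^ 2) := by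
        rw [← diagonal_one, diagonal_add]
        congr 1
        ext i
        have : Real.sqrt (1 + κ i ^ 2) * Real.sqrt (1 + κ i ^ 2) = 1 + κ i ^ 2 :=
          Real.mul_self_sqrt (by positivity)
        exact_mod_cast this
      rw [h3, Matrix.add_mul, Matrix.one_mul, Matrix.mul_add, ha0, ← Matrix.mul_assoc, ha2, hm0,
        hm2]
      ext i j
      simp only [Matrix.sub_apply, Matrix.add_apply, Matrix.smul_apply, smul_eq_mul]
      ring
    rw [h1, sub_self]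
    exact PosSemidef.zero

end Pool.Agent.MP2964cc
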