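import Mathlib

set_option autoImplicit false
open scoped ComplexOrder MatrixOrder
open Matrix

namespace Pool.Agent.MP2964cc

variable {n : Type} [Fintype n] [DecidableEq n]

/-- A positive definite matrix is `B * Bᴴ` with `B` invertible. -/
theorem exists_factor {P : Matrix n n ℂ} (hP : P.PosDef) :
    ∃ B : Matrix n n ℂ, IsUnit B ∧ P = B * Bᴴ := by
  obtain ⟨B, hB⟩ := CStarAlgebra.nonneg_iff_eq_mul_star_self.mp hP.posSemidef.nonneg
  refine ⟨B, ?_, hB⟩
  have h1 : IsUnit P := hP.isUnit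
  rw [hB, Matrix.isUnit_iff_isUnit_det, Matrix.det_mul] at h1
  rw [Matrix.isUnit_iff_isUnit_det]
  exact isUnit_of_mul_isUnit_left h1

/-- Simultaneous diagonalisation of a positive definite and a Hermitian matrix. -/
theorem simdiag {G0 G1 : Matrix n n ℂ} (h0 : G0.PosDef) (h1 : G1.IsHermitian) :
    ∃ (L : Matrix n n ℂ) (κ : n → ℝ), IsUnit L ∧ G0 = L * Lᴴ ∧
      G1 = L * diagonal (fun i => (κ i : ℂ)) * Lᴴ := by
  obtain ⟨B, hB, hB0⟩ := exists_factor h0
  have hdet : IsUnit B.det := (Matrix.isUnit_iff_isUnit_det _).1 hB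
  have hBi : B * B⁻¹ = 1 := Matrix.mul_nonsing_inv _ hdet
  have hiB : B⁻¹ * B = 1 := Matrix.nonsing_inv_mul _ hdet
  have hH : (B⁻¹ * G1 * (B⁻¹)ᴴ).IsHermitian := by
    unfold Matrix.IsHermitian
    rw [conjTranspose_mul, conjTranspose_mul, conjTranspose_conjTranspose, h1.eq, mul_assoc]
  have hs := hH.spectral_theorem
  set U : Matrix n n ℂ := (hH.eigenvectorUnitary : Matrix n n ℂ) with hU
  have hUU : U * Uᴴ = 1 := by
    have := (Matrix.mem_unitaryGroup_iff).1 hH.eigenvectorUnitary.2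
    simpa [hU, star_eq_conjTranspose] using this
  have hUU' : Uᴴ * U = 1 := by
    have := (Matrix.mem_unitaryGroup_iff').1 hH.eigenvectorUnitary.2
    simpa [hU, star_eq_conjTranspose] using this
  refine ⟨B * U, hH.eigenvalues, ?_, ?_, ?_⟩
  · refine hB.mul ?_
    exact IsUnit.of_mul_eq_one _ hUU
  · rw [conjTranspose_mul, mul_assoc, ← mul_assoc U, hUU, one_mul, hB0]
  · have h2 : B⁻¹ * G1 * (B⁻¹)ᴴ = U * diagonal (fun i => (hH.eigenvalues i : ℂ)) * Uᴴ := by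
      rw [Unitary.conjStarAlgAut_apply] at hs
      exact hs
    have h3 : G1 = B * (B⁻¹ * G1 * (B⁻¹)ᴴ) * Bᴴ := by
      have h4 : (B⁻¹)ᴴ * Bᴴ = 1 := by rw [← conjTranspose_mul, hBi, conjTranspose_one]
      calc G1 = (B * B⁻¹) * G1 * ((B⁻¹)ᴴ * Bᴴ) := by rw [hBi, h4, one_mul, mul_one]
        _ = _ := by simp only [mul_assoc]
    rw [h2] at h3
    refine h3.trans ?_
    rw [conjTranspose_mul]
    simp only [mul_assoc]

/-- Riccati equation `H P H = R`. -/
theorem riccati {P R : Matrix n n ℂ} (hP : P.PosDef) (hR : R.PosDef) :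
    ∃ H : Matrix n n ℂ, H.PosDef ∧ H * P * H = R := by
  obtain ⟨B, hB, hB0⟩ := exists_factor hP
  have hdet : IsUnit B.det := (Matrix.isUnit_iff_isUnit_det _).1 hB
  have hBi : B * B⁻¹ = 1 := Matrix.mul_nonsing_inv _ hdet
  have hiB : B⁻¹ * B = 1 := Matrix.nonsing_inv_mul _ hdet
  have hBi' : (B⁻¹)ᴴ * Bᴴ = 1 := by rw [← conjTranspose_mul, hBi, conjTranspose_one]
  have hiB' : Bᴴ * (B⁻¹)ᴴ = 1 := by rw [← conjTranspose_mul, hiB, conjTranspose_one]
  have hZ0 : (Bᴴ * R * B).PosDef := by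
    have := (hB.posDef_star_left_conjugate_iff (x := R)).2 hR
    simpa [star_eq_conjTranspose] using this
  set Z := CFC.sqrt (Bᴴ * R * B) with hZ
  have hZn : 0 ≤ Z := CFC.sqrt_nonneg _
  have hZZ : Z * Z = Bᴴ * R * B := CFC.sqrt_mul_sqrt_self _ hZ0.posSemidef.nonneg
  have hZu : IsUnit Z := by
    have h1 : IsUnit (Z * Z) := hZZ ▸ hZ0.isUnit
    rw [Matrix.isUnit_iff_isUnit_det, Matrix.det_mul] at h1
    rw [Matrix.isUnit_iff_isUnit_det]
    exact isUnit_of_mul_isUnit_left h1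
  have hZpd : Z.PosDef := (hZn.posSemidef.posDef_iff_isUnit).2 hZu
  refine ⟨(B⁻¹)ᴴ * Z * B⁻¹, ?_, ?_⟩
  · have hBu : IsUnit B⁻¹ := IsUnit.of_mul_eq_one _ hiB
    have := (hBu.posDef_star_left_conjugate_iff (x := Z)).2 hZpd
    simpa [star_eq_conjTranspose] using this
  · calc (B⁻¹)ᴴ * Z * B⁻¹ * P * ((B⁻¹)ᴴ * Z * B⁻¹)
        = (B⁻¹)ᴴ * Z * ((B⁻¹ * B) * (Bᴴ * (B⁻¹)ᴴ)) * Z * B⁻¹ := by
          rw [hB0]; simp only [mul_assoc]
      _ = (B⁻¹)ᴴ * (Z * Z) * B⁻¹ := by rw [hiB, hiB']; simp only [mul_assoc, mul_one]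
      _ = ((B⁻¹)ᴴ * Bᴴ) * R * (B * B⁻¹) := by rw [hZZ]; simp only [mul_assoc]
      _ = R := by rw [hBi, hBi', one_mul, mul_one]

/-- The key trace estimate. -/
theorem core {ρ P0 P1 P2 : Matrix n n ℂ} (hρ : ρ.PosDef) (h0 : P0.PosDef) (h2 : P2.PosDef)
    (hP : ∀ t : ℝ, 0 < t → (P0 + (t : ℂ) • P1 + ((t : ℂ) ^ 2) • P2).PosSemidef) :
    ∃ K : Matrix n n ℂ, (fromBlocks P0 K Kᴴ P2).PosSemidef ∧
      (trace (ρ * (K + Kᴴ))).re ≤ (trace (ρ * P1)).re := by
  have hR : (ρ * P2 * ρ).PosDef := by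
    have := (hρ.isUnit.posDef_star_left_conjugate_iff (x := P2)).2 h2
    simpa [star_eq_conjTranspose, hρ.isHermitian.eq] using this
  obtain ⟨H, hH, hHeq⟩ := riccati h0 hR
  obtain ⟨L, lam, hL, hρL, hHL⟩ := simdiag hρ hH.isHermitian
  have hρd : IsUnit ρ.det := (Matrix.isUnit_iff_isUnit_det _).1 hρ.isUnit
  have hρi : ρ * ρ⁻¹ = 1 := Matrix.mul_nonsing_inv _ hρd
  have hiρ : ρ⁻¹ * ρ = 1 := Matrix.nonsing_inv_mul _ hρd
  have hLd : IsUnit L.det := (Matrix.isUnit_iff_isUnit_det _).1 hL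
  have hLi : L * L⁻¹ = 1 := Matrix.mul_nonsing_inv _ hLd
  have hiL : L⁻¹ * L = 1 := Matrix.nonsing_inv_mul _ hLd
  have hρiH : (ρ⁻¹)ᴴ = ρ⁻¹ := by rw [conjTranspose_nonsing_inv, hρ.isHermitian.eq]
  set Y : Matrix n n ℂ := H * ρ⁻¹ with hY
  have hYH : Yᴴ = ρ⁻¹ * H := by rw [hY, conjTranspose_mul, hρiH, hH.isHermitian.eq]
  have hP2 : P2 = Yᴴ * P0 * Y := by
    calc P2 = (ρ⁻¹ * ρ) * P2 * (ρ * ρ⁻¹) := by rw [hρi, hiρ, one_mul, mul_one]
      _ = ρ⁻¹ * (ρ * P2 * ρ) * ρ⁻¹ := by simp only [mul_assoc]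
      _ = ρ⁻¹ * (H * P0 * H) * ρ⁻¹ := by rw [hHeq]
      _ = _ := by rw [hYH, hY]; simp only [mul_assoc]
  -- positivity of lam
  have hlam : ∀ k, 0 < lam k := by
    intro k
    have hd : (diagonal (fun i => (lam i : ℂ))).PosDef := by
      have := (hL.posDef_star_right_conjugate_iff (x := diagonal (fun i => (lam i : ℂ)))).1
      apply this
      rw [star_eq_conjTranspose, ← hHL]
      exact hH
    rw [posDef_diagonal_iff] at hd
    simpa using hd k
  have hYL : Y * L = L * diagonal (fun i => (lam i : ℂ)) := by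
    have hq : Lᴴ * (ρ⁻¹ * L) = 1 := by
      have : L * (Lᴴ * (ρ⁻¹ * L)) = L := by
        rw [← mul_assoc, ← hρL, ← mul_assoc, hρi, one_mul]
      calc Lᴴ * (ρ⁻¹ * L) = (L⁻¹ * L) * (Lᴴ * (ρ⁻¹ * L)) := by rw [hiL, one_mul]
        _ = L⁻¹ * (L * (Lᴴ * (ρ⁻¹ * L))) := by simp only [mul_assoc]
        _ = 1 := by rw [this, hiL]
    calc Y * L = L * diagonal (fun i => (lam i : ℂ)) * (Lᴴ * (ρ⁻¹ * L)) := by
          rw [hY, hHL]; simp only [mul_assoc]
      _ = _ := by rw [hq, mul_one]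
  refine ⟨-(P0 * Y), ?_, ?_⟩
  · have hb : fromBlocks P0 (-(P0 * Y)) (-(P0 * Y))ᴴ P2
        = (fromCols (1 : Matrix n n ℂ) (-Y))ᴴ * P0 * (fromCols (1 : Matrix n n ℂ) (-Y)) := by
      rw [conjTranspose_fromCols_eq_fromRows_conjTranspose, fromRows_mul, fromRows_mul_fromCols,
        hP2]
      simp [conjTranspose_mul, h0.isHermitian.eq, mul_assoc]
    rw [hb]
    exact h0.posSemidef.conjTranspose_mul_mul_same _
  · -- trace computation
    have hdiag : ∀ k, 0 ≤ ((Lᴴ * (P0 + ((1 / lam k : ℝ) : ℂ) • P1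
        + (((1 / lam k : ℝ) : ℂ) ^ 2) • P2) * L) k k).re := by
      intro k
      have h3 := (hP (1 / lam k) (by have := hlam k; positivity)).conjTranspose_mul_mul_same L
      have h4 := h3.diag_nonneg (i := k)
      exact (Complex.le_def.1 h4).1
    have hsum : 0 ≤ ∑ k, lam k * ((Lᴴ * (P0 + ((1 / lam k : ℝ) : ℂ) • P1
        + (((1 / lam k : ℝ) : ℂ) ^ 2) • P2) * L) k k).re :=
      Finset.sum_nonneg fun k _ => mul_nonneg (hlam k).le (hdiag k)
    have hLP2L : Lᴴ * P2 * L = diagonal (fun i => (lam i : ℂ)) * (Lᴴ * P0 * L) *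
        diagonal (fun i => (lam i : ℂ)) := by
      have hYL' : Lᴴ * Yᴴ = diagonal (fun i => (lam i : ℂ)) * Lᴴ := by
        rw [← conjTranspose_mul, hYL, conjTranspose_mul, diagonal_conjTranspose]
        congr 2
        ext i
        simp
      calc Lᴴ * P2 * L = (Lᴴ * Yᴴ) * P0 * (Y * L) := by rw [hP2]; simp only [mul_assoc]
        _ = _ := by rw [hYL, hYL']; simp only [mul_assoc]
    have hterm : ∀ k, lam k * ((Lᴴ * (P0 + ((1 / lam k : ℝ) : ℂ) • P1
        + (((1 / lam k : ℝ) : ℂ) ^ 2) • P2) * L) k k).re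
        = 2 * (lam k * ((Lᴴ * P0 * L) k k).re) + ((Lᴴ * P1 * L) k k).re := by
      intro k
      have hk := (hlam k).ne'
      have e1 : Lᴴ * (P0 + ((1 / lam k : ℝ) : ℂ) • P1
        + (((1 / lam k : ℝ) : ℂ) ^ 2) • P2) * L = Lᴴ * P0 * L + ((1 / lam k : ℝ) : ℂ) •
          (Lᴴ * P1 * L) + (((1 / lam k : ℝ) : ℂ) ^ 2) • (Lᴴ * P2 * L) := by
        simp only [mul_add, add_mul, Matrix.mul_smul, Matrix.smul_mul]
      have e2 : (Lᴴ * P2 * L) k k = ((lam k : ℂ) ^ 2) * (Lᴴ * P0 * L) k k := by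
        rw [hLP2L, mul_diagonal, diagonal_mul]
        ring
      rw [e1]
      simp only [Matrix.add_apply, Matrix.smul_apply, smul_eq_mul, e2]
      have e3 : (((1 / lam k : ℝ) : ℂ) ^ 2) * (((lam k : ℂ) ^ 2) * (Lᴴ * P0 * L) k k)
          = (Lᴴ * P0 * L) k k := by
        have : (lam k : ℂ) ≠ 0 := by exact_mod_cast hk
        push_cast
        field_simp
      rw [e3, Complex.add_re, Complex.add_re, Complex.re_ofReal_mul]
      field_simp
      ring
    rw [Finset.sum_congr rfl (fun k _ => hterm k), Finset.sum_add_distrib, ← Finset.mul_sum] at hsum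
    have t1 : ∑ k, lam k * ((Lᴴ * P0 * L) k k).re = (trace (P0 * H)).re := by
      have : trace (P0 * H) = trace (diagonal (fun i => (lam i : ℂ)) * (Lᴴ * P0 * L)) := by
        calc trace (P0 * H) = trace (P0 * L * (diagonal (fun i => (lam i : ℂ)) * Lᴴ)) := by
              rw [hHL]; simp only [mul_assoc]
          _ = trace ((diagonal (fun i => (lam i : ℂ)) * Lᴴ) * (P0 * L)) := trace_mul_comm _ _
          _ = _ := by simp only [mul_assoc]
      rw [this, trace, Complex.re_sum]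
      refine Finset.sum_congr rfl fun k _ => ?_
      rw [diag_apply, diagonal_mul, Complex.re_ofReal_mul]
    have t2 : ∑ k, ((Lᴴ * P1 * L) k k).re = (trace (ρ * P1)).re := by
      have : trace (ρ * P1) = trace (Lᴴ * P1 * L) := by
        calc trace (ρ * P1) = trace (L * (Lᴴ * P1)) := by rw [hρL, mul_assoc]
          _ = _ := trace_mul_comm _ _
      rw [this, trace, Complex.re_sum]
      rfl
    rw [t1, t2] at hsum
    have t3 : trace (ρ * (P0 * Y)) = trace (P0 * H) := by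
      calc trace (ρ * (P0 * Y)) = trace ((P0 * Y) * ρ) := trace_mul_comm _ _
        _ = trace (P0 * H * (ρ⁻¹ * ρ)) := by rw [hY]; simp only [mul_assoc]
        _ = _ := by rw [hiρ, mul_one]
    have t4 : (trace (ρ * (P0 * Y)ᴴ)).re = (trace (ρ * (P0 * Y))).re := by
      have : trace (ρ * (P0 * Y)ᴴ) = star (trace (ρ * (P0 * Y))) := by
        rw [← trace_conjTranspose, conjTranspose_mul ρ (P0 * Y), hρ.isHermitian.eq]
        exact trace_mul_comm _ _
      rw [this]; simp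
    have t5 : (trace (ρ * (-(P0 * Y) + (-(P0 * Y))ᴴ))).re = - (2 * (trace (P0 * H)).re) := by
      rw [conjTranspose_neg, mul_add, mul_neg, mul_neg, trace_add, trace_neg, trace_neg,
        Complex.add_re, Complex.neg_re, Complex.neg_re, t4, t3]
      ring
    rw [t5]
    linarith

end Pool.Agent.MP2964cc
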