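import Pool.Agent.Lib.MP_2964cc_an.Mat

set_option autoImplicit false
open scoped ComplexOrder MatrixOrder
open Matrix

namespace Pool.Agent.MP2964cc

variable {n : Type} [Fintype n] [DecidableEq n]

theorem isClosed_psd {m : Type} [Fintype m] : IsClosed {M : Matrix m m ℂ | M.PosSemidef} := by
  have h : {M : Matrix m m ℂ | M.PosSemidef} =
      {M : Matrix m m ℂ | Mᴴ = M} ∩ ⋂ x : m → ℂ,
        ({M : Matrix m m ℂ | 0 ≤ (star x ⬝ᵥ (M *ᵥ x)).re} ∩
          {M : Matrix m m ℂ | (star x ⬝ᵥ (M *ᵥ x)).im = 0}) := by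
    ext M
    simp only [Set.mem_ofPred_eq, Set.mem_inter_iff, Set.mem_iInter]
    rw [posSemidef_iff_dotProduct_mulVec]
    refine and_congr Iff.rfl (forall_congr' fun x => ?_)
    rw [Complex.le_def]
    simp only [Complex.zero_re, Complex.zero_im]
    exact and_congr Iff.rfl eq_comm
  rw [h]
  have hc : ∀ x : m → ℂ, Continuous fun M : Matrix m m ℂ => star x ⬝ᵥ (M *ᵥ x) := by
    intro x
    exact Continuous.dotProduct continuous_const (Continuous.matrix_mulVec continuous_id continuous_const)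
  refine (isClosed_eq (continuous_id.matrix_conjTranspose) continuous_id).inter
    (isClosed_iInter fun x => ?_)
  refine IsClosed.inter ?_ ?_
  · exact isClosed_le continuous_const (Complex.continuous_re.comp (hc x))
  · exact isClosed_eq (Complex.continuous_im.comp (hc x)) continuous_const

/-- The set of admissible off-diagonal blocks. -/
def KSet (P0 P2 : Matrix n n ℂ) : Set (Matrix n n ℂ) :=
  {K | (fromBlocks P0 K Kᴴ P2).PosSemidef}

omit [Fintype n] [DecidableEq n] in
theorem kset_bound {P0 P2 K : Matrix n n ℂ} (hK : K ∈ KSet P0 P2) (i j : n) :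
    ‖K i j‖ ≤ (P0 i i).re * (P2 j j).re + 1 := by
  have h1 : (fromBlocks P0 K Kᴴ P2).PosSemidef := hK
  have h2 := h1.submatrix (![Sum.inl i, Sum.inr j] : Fin 2 → n ⊕ n)
  have h3 := h2.det_nonneg
  rw [det_fin_two] at h3
  simp only [submatrix_apply, Matrix.cons_val_zero, Matrix.cons_val_one, fromBlocks_apply₁₁,
    fromBlocks_apply₁₂, fromBlocks_apply₂₁, fromBlocks_apply₂₂, conjTranspose_apply] at h3
  have e1 := h1.diag_nonneg (i := Sum.inl i)
  have e2 := h1.diag_nonneg (i := Sum.inr j)
  simp only [fromBlocks_apply₁₁, fromBlocks_apply₂₂] at e1 e2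
  have h4 := (Complex.le_def.1 h3).1
  have i1 := (Complex.le_def.1 e1).2
  have i2 := (Complex.le_def.1 e2).2
  simp only [Complex.zero_re, Complex.zero_im, Complex.sub_re, Complex.mul_re] at h4 i1 i2
  rw [← i1, ← i2] at h4
  have h5 : ‖K i j‖ ^ 2 ≤ (P0 i i).re * (P2 j j).re := by
    rw [← Complex.normSq_eq_norm_sq, Complex.normSq_apply]
    have : (star (K i j)).re = (K i j).re := by simp
    have h7 : (star (K i j)).im = -(K i j).im := by simp
    rw [this, h7] at h4
    nlinarith
  nlinarith [sq_nonneg (‖K i j‖ - 1 / 2), norm_nonneg (K i j)]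

theorem isCompact_kset (P0 P2 : Matrix n n ℂ) : IsCompact (KSet P0 P2) := by
  have hcl : IsClosed (KSet P0 P2) := by
    have : Continuous fun K : Matrix n n ℂ => fromBlocks P0 K Kᴴ P2 := by
      apply Continuous.matrix_fromBlocks continuous_const continuous_id
        continuous_id.matrix_conjTranspose continuous_const
    exact isClosed_psd.preimage this
  have hcomp : IsCompact (Set.pi Set.univ (fun i : n => Set.pi Set.univ (fun j : n =>
      Metric.closedBall (0 : ℂ) ((P0 i i).re * (P2 j j).re + 1)))) := by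
    apply isCompact_univ_pi
    intro i
    apply isCompact_univ_pi
    intro j
    exact isCompact_closedBall _ _
  refine IsCompact.of_isClosed_subset hcomp hcl ?_
  intro K hK i _ j _
  rw [mem_closedBall_zero_iff]
  exact kset_bound hK i j

omit [Fintype n] [DecidableEq n] in
theorem convex_kset (P0 P2 : Matrix n n ℂ) : Convex ℝ (KSet P0 P2) := by
  intro K hK K' hK' a b ha hb hab
  have h1 : (fromBlocks P0 K Kᴴ P2).PosSemidef := hK
  have h2 : (fromBlocks P0 K' K'ᴴ P2).PosSemidef := hK'
  have h3 : (((a : ℂ) • fromBlocks P0 K Kᴴ P2) + ((b : ℂ) • fromBlocks P0 K' K'ᴴ P2)).PosSemidef :=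
    (h1.smul (by exact_mod_cast ha)).add (h2.smul (by exact_mod_cast hb))
  have hab' : (a : ℂ) + (b : ℂ) = 1 := by exact_mod_cast hab
  show (fromBlocks P0 (a • K + b • K') (a • K + b • K')ᴴ P2).PosSemidef
  convert h3 using 1
  ext (i | i) (j | j)
  · simp only [fromBlocks_apply₁₁, Matrix.add_apply, Matrix.smul_apply, smul_eq_mul]
    rw [← add_mul, hab', one_mul]
  · simp
  · simp
  · simp only [fromBlocks_apply₂₂, Matrix.add_apply, Matrix.smul_apply, smul_eq_mul]
    rw [← add_mul, hab', one_mul]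

/-- Representation of a real functional on complex matrices. -/
theorem exists_rep (g : Matrix n n ℂ →ₗ[ℝ] ℝ) :
    ∃ ρ : Matrix n n ℂ, ∀ M, g M = (trace (ρ * M)).re := by
  refine ⟨Matrix.of fun j i => (g (single i j 1) : ℂ) - Complex.I * (g (single i j Complex.I) : ℂ),
    fun M => ?_⟩
  conv_lhs => rw [matrix_eq_sum_single M]
  rw [map_sum]
  simp only [map_sum]
  rw [trace, Complex.re_sum, Finset.sum_comm]
  refine Finset.sum_congr rfl fun j _ => ?_
  rw [diag_apply, mul_apply, Complex.re_sum]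
  refine Finset.sum_congr rfl fun i _ => ?_
  have h1 : single i j (M i j) = (M i j).re • single i j (1 : ℂ) +
      (M i j).im • single i j Complex.I := by
    rw [smul_single, smul_single, ← single_add]
    congr 1
    apply Complex.ext <;> simp
  rw [h1, map_add, map_smul, map_smul, of_apply]
  simp
  ring

theorem trace_herm_re {ρ M : Matrix n n ℂ} (hM : M.IsHermitian) :
    (trace (((1 / 2 : ℂ) • (ρ + ρᴴ)) * M)).re = (trace (ρ * M)).re := by
  have h1 : trace (ρᴴ * M) = star (trace (ρ * M)) := by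
    rw [← trace_conjTranspose, conjTranspose_mul ρ M, hM.eq]
    exact trace_mul_comm _ _
  rw [Matrix.smul_mul, trace_smul, add_mul, trace_add, h1]
  simp
  ring

theorem step1 {P0 P1 P2 : Matrix n n ℂ} (h0 : P0.PosDef) (h2 : P2.PosDef) (h1 : P1.IsHermitian)
    (hP : ∀ t : ℝ, 0 < t → (P0 + (t : ℂ) • P1 + ((t : ℂ) ^ 2) • P2).PosSemidef) :
    ∃ K : Matrix n n ℂ, (fromBlocks P0 K Kᴴ P2).PosSemidef ∧ (P1 - (K + Kᴴ)).PosSemidef := by
  by_contra hcon
  push Not at hcon
  have : LocallyConvexSpace ℝ (Matrix n n ℂ) :=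
    inferInstanceAs (LocallyConvexSpace ℝ (n → n → ℂ))
  set s : Set (Matrix n n ℂ) := (fun K => K + Kᴴ - P1) '' KSet P0 P2 with hs
  set t : Set (Matrix n n ℂ) := {M | (-M).PosSemidef} with ht
  have hcont : Continuous fun K : Matrix n n ℂ => K + Kᴴ - P1 :=
    (continuous_id.add continuous_id.matrix_conjTranspose).sub continuous_const
  have hsc : IsCompact s := (isCompact_kset P0 P2).image hcont
  have hsconv : Convex ℝ s := by
    rintro _ ⟨K, hK, rfl⟩ _ ⟨K', hK', rfl⟩ a b ha hb hab
    refine ⟨a • K + b • K', convex_kset P0 P2 hK hK' ha hb hab, ?_⟩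
    simp only [conjTranspose_add, conjTranspose_smul, star_trivial, smul_sub, smul_add]
    have : P1 = a • P1 + b • P1 := by rw [← add_smul, hab, one_smul]
    conv_lhs => rw [this]
    abel
  have htc : IsClosed t := isClosed_psd.preimage continuous_neg
  have htconv : Convex ℝ t := by
    intro M hM M' hM' a b ha hb hab
    have e1 : (-M).PosSemidef := hM
    have e2 : (-M').PosSemidef := hM'
    have h3 : (((a : ℂ) • (-M)) + ((b : ℂ) • (-M'))).PosSemidef :=
      (e1.smul (by exact_mod_cast ha)).add (e2.smul (by exact_mod_cast hb))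
    show (-(a • M + b • M')).PosSemidef
    convert h3 using 1
    ext i j
    simp
    ring
  have hdisj : Disjoint s t := by
    rw [Set.disjoint_left]
    rintro _ ⟨K, hK, rfl⟩ hM
    apply hcon K hK
    have : (-(K + Kᴴ - P1)).PosSemidef := hM
    rwa [neg_sub] at this
  obtain ⟨f, u, v, hfu, huv, hfv⟩ :=
    geometric_hahn_banach_compact_closed hsconv hsc htconv htc hdisj
  have hv0 : v < 0 := by
    have h3 := hfv 0 (by show (-(0 : Matrix n n ℂ)).PosSemidef; rw [neg_zero]; exact PosSemidef.zero)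
    simpa using h3
  have hpos : ∀ Q : Matrix n n ℂ, Q.PosSemidef → f Q ≤ 0 := by
    intro Q hQ
    by_contra hlt
    push Not at hlt
    have hc : 0 ≤ (-v) / f Q := div_nonneg (by linarith) hlt.le
    have h3 : (((((-v) / f Q : ℝ)) : ℂ) • Q).PosSemidef := hQ.smul (by exact_mod_cast hc)
    have h4 : (((((-v) / f Q : ℝ)) : ℂ) • Q) = ((-v) / f Q : ℝ) • Q := by
      ext i j
      simp
    rw [h4] at h3
    have h5 := hfv (-(((-v) / f Q : ℝ) • Q)) (by
      show (-(-(((-v) / f Q : ℝ) • Q)) : Matrix n n ℂ).PosSemidef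
      rw [neg_neg]; exact h3)
    rw [map_neg, map_smul, smul_eq_mul, div_mul_cancel₀ _ hlt.ne'] at h5
    linarith
  obtain ⟨ρ, hρ⟩ := exists_rep (-(f : Matrix n n ℂ →ₗ[ℝ] ℝ))
  have hρ' : ∀ M, -(f M) = (trace (ρ * M)).re := fun M => hρ M
  set σ : Matrix n n ℂ := (1 / 2 : ℂ) • (ρ + ρᴴ) with hσ
  have hσH : σ.IsHermitian := by
    unfold Matrix.IsHermitian
    rw [hσ, conjTranspose_smul, conjTranspose_add, conjTranspose_conjTranspose, add_comm ρᴴ ρ]
    congr 1
    simp
  have hσM : ∀ M : Matrix n n ℂ, M.IsHermitian → (trace (σ * M)).re = -(f M) := by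
    intro M hM
    rw [hρ', hσ, trace_herm_re hM]
  have hσps : σ.PosSemidef := by
    refine PosSemidef.of_dotProduct_mulVec_nonneg hσH fun x => ?_
    have h3 := posSemidef_vecMulVec_self_star x
    have h4 := hpos _ h3
    have h5 := hσM _ h3.isHermitian
    have h6 : trace (σ * vecMulVec x (star x)) = star x ⬝ᵥ (σ *ᵥ x) := by
      rw [mul_vecMulVec, trace_vecMulVec, dotProduct_comm]
    rw [h6] at h5
    rw [Complex.le_def]
    refine ⟨by rw [h5]; simpa using h4, ?_⟩
    have := hσH.im_star_dotProduct_mulVec_self x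
    simpa using this.symm
  -- bound on traces
  set C : ℝ := 2 * ∑ i, ((P0 i i).re * (P2 i i).re + 1) + |(trace P1).re| with hC
  have hP0re : ∀ i, 0 ≤ (P0 i i).re := fun i => (Complex.le_def.1 (h0.posSemidef.diag_nonneg (i := i))).1
  have hP2re : ∀ i, 0 ≤ (P2 i i).re := fun i => (Complex.le_def.1 (h2.posSemidef.diag_nonneg (i := i))).1
  have hC0 : 0 ≤ C := by
    have : 0 ≤ ∑ i, ((P0 i i).re * (P2 i i).re + 1) :=
      Finset.sum_nonneg fun i _ => by have := mul_nonneg (hP0re i) (hP2re i); linarith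
    have h4 := abs_nonneg (trace P1).re
    linarith
  have htr : ∀ K ∈ KSet P0 P2, -C ≤ (trace (K + Kᴴ - P1)).re := by
    intro K hK
    rw [trace_sub, trace_add, trace_conjTranspose]
    have e1 : (star (trace K)).re = (trace K).re := by simp
    rw [Complex.sub_re, Complex.add_re, e1]
    have e2 : -(∑ i, ((P0 i i).re * (P2 i i).re + 1)) ≤ (trace K).re := by
      rw [trace, Complex.re_sum, ← Finset.sum_neg_distrib]
      refine Finset.sum_le_sum fun i _ => ?_
      have h3 := kset_bound hK i i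
      have h4 := (abs_le.1 (Complex.abs_re_le_norm (K i i))).1
      rw [diag_apply]
      linarith
    have h5 := neg_abs_le (trace P1).re
    have h6 := le_abs_self (trace P1).re
    linarith
  set δ : ℝ := -v with hδ
  have hδ0 : 0 < δ := by rw [hδ]; linarith
  set ε : ℝ := δ / (C + 1) with hε
  have hε0 : 0 < ε := by positivity
  have hεC : ε * C < δ := by
    rw [hε, div_mul_eq_mul_div, div_lt_iff₀ (by linarith)]
    nlinarith
  have hρpd : (σ + (ε : ℂ) • (1 : Matrix n n ℂ)).PosDef :=
    PosDef.posSemidef_add hσps (PosDef.one.smul (by exact_mod_cast hε0))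
  obtain ⟨K, hK, hKtr⟩ := core hρpd h0 h2 hP
  have hKH : (K + Kᴴ - P1).IsHermitian := by
    unfold Matrix.IsHermitian
    rw [conjTranspose_sub, conjTranspose_add, conjTranspose_conjTranspose, h1.eq, add_comm Kᴴ K]
  have h7 : (trace ((σ + (ε : ℂ) • (1 : Matrix n n ℂ)) * (K + Kᴴ - P1))).re ≤ 0 := by
    rw [mul_sub, trace_sub, Complex.sub_re]
    linarith
  rw [add_mul, trace_add, Complex.add_re, hσM _ hKH, Matrix.smul_mul, one_mul, trace_smul,
    smul_eq_mul, Complex.re_ofReal_mul] at h7
  have h8 := hfu _ ⟨K, hK, rfl⟩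
  have h9 := htr K hK
  have h10 : -(ε * C) ≤ ε * (trace (K + Kᴴ - P1)).re := by
    have := mul_le_mul_of_nonneg_left h9 hε0.le
    linarith
  simp only at h8
  linarith

end Pool.Agent.MP2964cc
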