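import Pool.Agent.Lib.MP_2964cc_an.Factor

set_option autoImplicit false
open scoped ComplexOrder
open Matrix

namespace Pool.Agent.MP2964cc

/-- The parameter interval `[0, π/2]`. -/
abbrev Q : Type := Set.Icc (0 : ℝ) (Real.pi / 2)

noncomputable def cosF : C(Q, ℂ) := ⟨fun φ => (Real.cos (φ : ℝ) : ℂ), by fun_prop⟩
noncomputable def sinF : C(Q, ℂ) := ⟨fun φ => (Real.sin (φ : ℝ) : ℂ), by fun_prop⟩

/-- The two-dimensional subspace `span {cos, sin} ⊆ C([0, π/2])`. -/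
noncomputable def S : Submodule ℂ C(Q, ℂ) := Submodule.span ℂ {cosF, sinF}

/-- The two-dimensional normed space `span {cos, sin} ⊆ C([0, π/2])`. -/
def E : Type := S

noncomputable instance : NormedAddCommGroup E := inferInstanceAs (NormedAddCommGroup S)
noncomputable instance : NormedSpace ℂ E := inferInstanceAs (NormedSpace ℂ S)

/-- The inclusion. -/
noncomputable def incl : E →L[ℂ] C(Q, ℂ) := S.subtypeL

theorem incl_inj {x y : E} (h : incl x = incl y) : x = y := Subtype.ext h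

/-- The element `a cos + b sin`. -/
noncomputable def mk (a b : ℂ) : E :=
  (⟨a • cosF + b • sinF, Submodule.mem_span_pair.2 ⟨a, b, rfl⟩⟩ : S)

theorem exists_mk (x : E) : ∃ a b : ℂ, x = mk a b := by
  obtain ⟨a, b, h⟩ := Submodule.mem_span_pair.1 (show (incl x) ∈ Submodule.span ℂ {cosF, sinF} from
    Subtype.prop (p := fun f => f ∈ S) x)
  exact ⟨a, b, incl_inj h.symm⟩

/-- evaluation -/
noncomputable def ev (φ : Q) : E →L[ℂ] ℂ :=
  (ContinuousMap.evalCLM ℂ φ).comp incl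

theorem ev_mk (φ : Q) (a b : ℂ) :
    ev φ (mk a b) = a * (Real.cos (φ : ℝ) : ℂ) + b * (Real.sin (φ : ℝ) : ℂ) := rfl

theorem ev_le (φ : Q) (x : E) : ‖ev φ x‖ ≤ ‖x‖ :=
  ContinuousMap.norm_coe_le_norm (incl x) φ

theorem norm_ev_le (φ : Q) : ‖ev φ‖ ≤ 1 :=
  ContinuousLinearMap.opNorm_le_bound _ zero_le_one fun x => by
    rw [one_mul]; exact ev_le φ x

def q0 : Q := ⟨0, by constructor <;> [exact le_rfl; positivity]⟩
noncomputable def q1 : Q := ⟨Real.pi / 2, by constructor <;> [positivity; exact le_rfl]⟩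

theorem ev_q0 (a b : ℂ) : ev q0 (mk a b) = a := by
  rw [ev_mk]; simp [q0]

theorem ev_q1 (a b : ℂ) : ev q1 (mk a b) = b := by
  rw [ev_mk]; simp [q1]

theorem ext_q {x y : E} (h0 : ev q0 x = ev q0 y) (h1 : ev q1 x = ev q1 y) : x = y := by
  obtain ⟨a, b, rfl⟩ := exists_mk x
  obtain ⟨c, d, rfl⟩ := exists_mk y
  rw [ev_q0, ev_q0] at h0
  rw [ev_q1, ev_q1] at h1
  rw [h0, h1]

theorem q_nonneg (φ : Q) : 0 ≤ Real.cos (φ : ℝ) ∧ 0 ≤ Real.sin (φ : ℝ) := by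
  obtain ⟨h0, h1⟩ := φ.2
  exact ⟨Real.cos_nonneg_of_neg_pi_div_two_le_of_le (by linarith [Real.pi_pos]) h1,
    Real.sin_nonneg_of_nonneg_of_le_pi h0 (by linarith [Real.pi_pos])⟩

theorem norm_le_of {x : E} {C : ℝ} (hC : 0 ≤ C) (h : ∀ φ, ‖ev φ x‖ ≤ C) : ‖x‖ ≤ C :=
  (ContinuousMap.norm_le (incl x) hC).2 h

theorem norm_mk_le {a b : ℂ} (ha : ‖a‖ ≤ 1) (hb : ‖b‖ ≤ 1) (hab : (a * star b).re ≤ 0) :
    ‖mk a b‖ ≤ 1 := by
  refine norm_le_of zero_le_one fun φ => ?_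
  obtain ⟨hc, hs⟩ := q_nonneg φ
  have hcs := Real.sin_sq_add_cos_sq (φ : ℝ)
  rw [ev_mk]
  set p := Real.cos (φ : ℝ)
  set q := Real.sin (φ : ℝ)
  have h1 : ‖a * (p : ℂ) + b * (q : ℂ)‖ ^ 2 = ‖a‖ ^ 2 * p ^ 2 + ‖b‖ ^ 2 * q ^ 2 +
      2 * (p * q) * (a * star b).re := by
    rw [← Complex.normSq_eq_norm_sq, ← Complex.normSq_eq_norm_sq, ← Complex.normSq_eq_norm_sq,
      Complex.normSq_apply, Complex.normSq_apply, Complex.normSq_apply]
    simp
    ring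
  have h2 : ‖a * (p : ℂ) + b * (q : ℂ)‖ ^ 2 ≤ 1 := by
    rw [h1]
    have e1 : ‖a‖ ^ 2 * p ^ 2 ≤ 1 * p ^ 2 :=
      mul_le_mul_of_nonneg_right (by nlinarith [norm_nonneg a]) (sq_nonneg p)
    have e2 : ‖b‖ ^ 2 * q ^ 2 ≤ 1 * q ^ 2 :=
      mul_le_mul_of_nonneg_right (by nlinarith [norm_nonneg b]) (sq_nonneg q)
    have e3 : 2 * (p * q) * (a * star b).re ≤ 0 :=
      mul_nonpos_of_nonneg_of_nonpos (by positivity) hab
    linarith
  nlinarith [norm_nonneg (a * (p : ℂ) + b * (q : ℂ))]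

theorem exists_angle {p q : ℝ} (hp : 0 ≤ p) (hq : 0 ≤ q) (h : p ^ 2 + q ^ 2 = 1) :
    ∃ φ : Q, Real.cos (φ : ℝ) = p ∧ Real.sin (φ : ℝ) = q := by
  have hp1 : p ≤ 1 := by nlinarith
  refine ⟨⟨Real.arccos p, Real.arccos_nonneg p, Real.arccos_le_pi_div_two.2 hp⟩, ?_, ?_⟩
  · exact Real.cos_arccos (by linarith) hp1
  · show Real.sin (Real.arccos p) = q
    rw [Real.sin_arccos, show 1 - p ^ 2 = q ^ 2 by linarith, Real.sqrt_sq hq]

theorem norm_coef (κ : ℝ) : ‖(1 + Complex.I * κ) / (Real.sqrt (1 + κ ^ 2) : ℂ)‖ = 1 ∧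
    ‖(-1 + Complex.I * κ) / (Real.sqrt (1 + κ ^ 2) : ℂ)‖ = 1 := by
  have hw : 0 < Real.sqrt (1 + κ ^ 2) := Real.sqrt_pos.2 (by positivity)
  have h1 : ‖(1 + Complex.I * κ : ℂ)‖ = Real.sqrt (1 + κ ^ 2) := by
    rw [Complex.norm_def, Complex.normSq_apply]
    congr 1
    simp
    ring
  have h2 : ‖(-1 + Complex.I * κ : ℂ)‖ = Real.sqrt (1 + κ ^ 2) := by
    rw [Complex.norm_def, Complex.normSq_apply]
    congr 1
    simp
    ring
  have h3 : ‖(Real.sqrt (1 + κ ^ 2) : ℂ)‖ = Real.sqrt (1 + κ ^ 2) := by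
    rw [Complex.norm_real, Real.norm_of_nonneg hw.le]
  rw [norm_div, norm_div, h1, h2, h3]
  exact ⟨div_self hw.ne', div_self hw.ne'⟩

theorem re_coef {κ : ℝ} (hκ : κ ^ 2 ≤ 1) :
    ((1 + Complex.I * κ) / (Real.sqrt (1 + κ ^ 2) : ℂ) *
      star ((-1 + Complex.I * κ) / (Real.sqrt (1 + κ ^ 2) : ℂ))).re ≤ 0 := by
  have hw : 0 < Real.sqrt (1 + κ ^ 2) := Real.sqrt_pos.2 (by positivity)
  have h1 : (1 + Complex.I * κ) / (Real.sqrt (1 + κ ^ 2) : ℂ) *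
      star ((-1 + Complex.I * κ) / (Real.sqrt (1 + κ ^ 2) : ℂ)) =
      (((κ ^ 2 - 1) / (1 + κ ^ 2) : ℝ) : ℂ) + ((-2 * κ / (1 + κ ^ 2) : ℝ) : ℂ) * Complex.I := by
    have h2 : (Real.sqrt (1 + κ ^ 2) : ℂ) * (Real.sqrt (1 + κ ^ 2) : ℂ) = ((1 + κ ^ 2 : ℝ) : ℂ) := by
      rw [← Complex.ofReal_mul, Real.mul_self_sqrt (by positivity)]
    have h3 : star ((-1 + Complex.I * κ) / (Real.sqrt (1 + κ ^ 2) : ℂ)) =
        (-1 - Complex.I * κ) / (Real.sqrt (1 + κ ^ 2) : ℂ) := by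
      simp [sub_eq_add_neg]
    have h4 : ((1 + κ ^ 2 : ℝ) : ℂ) ≠ 0 := by
      exact_mod_cast (by positivity : (0 : ℝ) < 1 + κ ^ 2).ne'
    rw [h3, div_mul_div_comm, h2]
    rw [Complex.ofReal_div, Complex.ofReal_div, div_mul_eq_mul_div, ← add_div]
    congr 1
    push_cast
    ring_nf
    rw [Complex.I_sq]
    ring
  rw [h1]
  simp only [Complex.add_re, Complex.ofReal_re, Complex.re_ofReal_mul, Complex.I_re, mul_zero,
    add_zero]
  exact div_nonpos_of_nonpos_of_nonneg (by linarith) (by positivity)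

theorem mk_add_sum {ι : Type} (s : Finset ι) (c : ι → ℂ) (α β : ι → ℂ) :
    ∑ k ∈ s, c k • mk (α k) (β k) = mk (∑ k ∈ s, c k * α k) (∑ k ∈ s, c k * β k) := by
  apply ext_q
  · rw [map_sum, ev_q0]
    refine Finset.sum_congr rfl fun k _ => ?_
    rw [map_smul, ev_q0, smul_eq_mul]
  · rw [map_sum, ev_q1]
    refine Finset.sum_congr rfl fun k _ => ?_
    rw [map_smul, ev_q1, smul_eq_mul]

/-- `E` satisfies: maximal matrix norms never exceed minimal ones. -/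
theorem E_unique (n : ℕ) (x : Matrix (Fin n) (Fin n) E) (s t : ℝ) (hs : 0 ≤ s) (hst : s < t)
    (hf : ∀ f : E →L[ℂ] ℂ, ‖f‖ ≤ 1 →
        (((s ^ 2 : ℝ) : ℂ) • (1 : Matrix (Fin n) (Fin n) ℂ) -
          (Matrix.of fun i j => f (x i j)) *
            (Matrix.of fun i j => f (x i j)).conjTranspose).PosSemidef) :
    ∃ (N : ℕ) (a : Matrix (Fin n) (Fin N) ℂ) (b : Matrix (Fin N) (Fin n) ℂ)
        (d : Fin N → E),
        (∀ k, ‖d k‖ ≤ 1) ∧
        (∀ i j, x i j = ∑ k, (a i k * b k j) • d k) ∧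
        (((t : ℂ) • (1 : Matrix (Fin n) (Fin n) ℂ) - a * a.conjTranspose).PosSemidef) ∧
        (((t : ℂ) • (1 : Matrix (Fin n) (Fin n) ℂ) - b.conjTranspose * b).PosSemidef) := by
  have ht : 0 < t := lt_of_le_of_lt hs hst
  have htC : (t : ℂ) ≠ 0 := by exact_mod_cast ht.ne'
  choose A0 B0 hx using fun i j => exists_mk (x i j)
  set A : Matrix (Fin n) (Fin n) ℂ := Matrix.of fun i j => (t : ℂ)⁻¹ * A0 i j with hA
  set B : Matrix (Fin n) (Fin n) ℂ := Matrix.of fun i j => (t : ℂ)⁻¹ * B0 i j with hB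
  have hr : (s / t) ^ 2 < 1 := by
    have h0 : 0 ≤ s / t := by positivity
    have h1 : s / t < 1 := (div_lt_one ht).2 hst
    nlinarith
  have H : ∀ p q : ℝ, 0 ≤ p → 0 ≤ q → p ^ 2 + q ^ 2 = 1 →
      ((((s / t) ^ 2 : ℝ) : ℂ) • (1 : Matrix (Fin n) (Fin n) ℂ) -
        ((p : ℂ) • A + (q : ℂ) • B) * ((p : ℂ) • A + (q : ℂ) • B)ᴴ).PosSemidef := by
    intro p q hp hq hpq
    obtain ⟨φ, h1, h2⟩ := exists_angle hp hq hpq
    have h3 := (hf (ev φ) (norm_ev_le φ)).smul (α := ℂ) (a := (((1 / t) ^ 2 : ℝ) : ℂ))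
      (by exact_mod_cast (by positivity : (0 : ℝ) ≤ (1 / t) ^ 2))
    have h4 : (Matrix.of fun i j => ev φ (x i j)) = (t : ℂ) • ((p : ℂ) • A + (q : ℂ) • B) := by
      ext i j
      simp only [of_apply, Matrix.smul_apply, Matrix.add_apply, smul_eq_mul, hA, hB]
      rw [hx i j, ev_mk, h1, h2]
      field_simp
    rw [h4] at h3
    have h5 : (((1 / t) ^ 2 : ℝ) : ℂ) • (((s ^ 2 : ℝ) : ℂ) • (1 : Matrix (Fin n) (Fin n) ℂ) -
        ((t : ℂ) • ((p : ℂ) • A + (q : ℂ) • B)) *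
          ((t : ℂ) • ((p : ℂ) • A + (q : ℂ) • B)).conjTranspose) =
        (((s / t) ^ 2 : ℝ) : ℂ) • (1 : Matrix (Fin n) (Fin n) ℂ) -
        ((p : ℂ) • A + (q : ℂ) • B) * ((p : ℂ) • A + (q : ℂ) • B)ᴴ := by
      rw [conjTranspose_smul, Matrix.smul_mul, Matrix.mul_smul, smul_smul, smul_sub, smul_smul,
        smul_smul]
      congr 1
      · congr 1
        push_cast
        field_simp
      · have h6 : star (t : ℂ) = (t : ℂ) := Complex.conj_ofReal _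
        rw [h6]
        have h7 : (((1 / t) ^ 2 : ℝ) : ℂ) * ((t : ℂ) * (t : ℂ)) = 1 := by
          push_cast
          field_simp
        rw [h7, one_smul]
    rw [h5] at h3
    exact h3
  obtain ⟨a, b, κ, hκ, hAeq, hBeq, haa, hbb⟩ := factor hr H
  set e : Fin (n + n) ≃ Fin n ⊕ Fin n := finSumFinEquiv.symm with he
  have hst0 : 0 ≤ Real.sqrt t := Real.sqrt_nonneg t
  have hstt : (Real.sqrt t : ℂ) * (Real.sqrt t : ℂ) = (t : ℂ) := by
    rw [← Complex.ofReal_mul, Real.mul_self_sqrt ht.le]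
  have hstar : star (Real.sqrt t : ℂ) = (Real.sqrt t : ℂ) := Complex.conj_ofReal _
  refine ⟨n + n, (Real.sqrt t : ℂ) • a.submatrix id e, (Real.sqrt t : ℂ) • b.submatrix e id,
    fun k => mk ((1 + Complex.I * κ (e k)) / (Real.sqrt (1 + κ (e k) ^ 2) : ℂ))
      ((-1 + Complex.I * κ (e k)) / (Real.sqrt (1 + κ (e k) ^ 2) : ℂ)), ?_, ?_, ?_, ?_⟩
  · intro k
    obtain ⟨h1, h2⟩ := norm_coef (κ (e k))
    exact norm_mk_le h1.le h2.le (re_coef (hκ (e k)))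
  · intro i j
    rw [mk_add_sum, hx i j]
    have hAe : A0 i j = (t : ℂ) * A i j := by
      simp only [hA, of_apply]; field_simp
    have hBe : B0 i j = (t : ℂ) * B i j := by
      simp only [hB, of_apply]; field_simp
    congr 1
    · rw [hAe, hAeq, mul_apply, Finset.mul_sum, ← Equiv.sum_comp e]
      refine Finset.sum_congr rfl fun k _ => ?_
      rw [mul_diagonal]
      simp only [Matrix.smul_apply, submatrix_apply, id_eq, smul_eq_mul]
      rw [← hstt]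
      ring
    · rw [hBe, hBeq, mul_apply, Finset.mul_sum, ← Equiv.sum_comp e]
      refine Finset.sum_congr rfl fun k _ => ?_
      rw [mul_diagonal]
      simp only [Matrix.smul_apply, submatrix_apply, id_eq, smul_eq_mul]
      rw [← hstt]
      ring
  · have h1 : (t : ℂ) • (1 : Matrix (Fin n) (Fin n) ℂ) -
        ((Real.sqrt t : ℂ) • a.submatrix id e) * ((Real.sqrt t : ℂ) • a.submatrix id e)ᴴ
        = (t : ℂ) • (1 - a * aᴴ) := by
      rw [conjTranspose_smul, conjTranspose_submatrix, Matrix.smul_mul, Matrix.mul_smul, smul_smul,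
        submatrix_mul_equiv, submatrix_id_id, hstar, hstt, smul_sub]
    rw [h1]
    exact haa.smul (by exact_mod_cast ht.le)
  · have h1 : (t : ℂ) • (1 : Matrix (Fin n) (Fin n) ℂ) -
        ((Real.sqrt t : ℂ) • b.submatrix e id)ᴴ * ((Real.sqrt t : ℂ) • b.submatrix e id)
        = (t : ℂ) • (1 - bᴴ * b) := by
      rw [conjTranspose_smul, conjTranspose_submatrix, Matrix.smul_mul, Matrix.mul_smul, smul_smul,
        submatrix_mul_equiv, submatrix_id_id, hstar, hstt, smul_sub]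
    rw [h1]
    exact hbb.smul (by exact_mod_cast ht.le)

theorem mk_eq_zero {a b : ℂ} (h : mk a b = 0) : a = 0 ∧ b = 0 := by
  constructor
  · rw [← ev_q0 a b, h, map_zero]
  · rw [← ev_q1 a b, h, map_zero]

theorem smul_mk (c a b : ℂ) : c • mk a b = mk (c * a) (c * b) := by
  apply ext_q
  · rw [map_smul, ev_q0, ev_q0, smul_eq_mul]
  · rw [map_smul, ev_q1, ev_q1, smul_eq_mul]

theorem E_nontrivial : Nontrivial E :=
  ⟨⟨mk 1 0, 0, fun h => one_ne_zero (mk_eq_zero h).1⟩⟩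

theorem not_C : ¬ Nonempty (E ≃ₗᵢ[ℂ] ℂ) := by
  rintro ⟨Φ⟩
  have h1 : Φ (Φ (mk 0 1) • mk 1 0 - Φ (mk 1 0) • mk 0 1) = 0 := by
    rw [map_sub, map_smul, map_smul, smul_eq_mul, smul_eq_mul]; ring
  have h2 : Φ (mk 0 1) • mk 1 0 - Φ (mk 1 0) • mk 0 1 = 0 :=
    Φ.injective (h1.trans (map_zero Φ).symm)
  have h3 := congrArg (ev q1) h2
  rw [map_sub, map_smul, map_smul, ev_q1, ev_q1, map_zero] at h3
  simp only [smul_eq_mul, mul_zero, mul_one, zero_sub, neg_eq_zero] at h3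
  have h4 : mk 1 0 = 0 := Φ.injective (h3.trans (map_zero Φ).symm)
  exact one_ne_zero (mk_eq_zero h4).1

theorem not_l1 : ¬ Nonempty (E ≃ₗᵢ[ℂ] PiLp 1 (fun _ : Fin 2 => ℂ)) := by
  rintro ⟨Φ⟩
  have hnorm : ∀ x : E, ‖x‖ = ‖Φ x 0‖ + ‖Φ x 1‖ := by
    intro x
    rw [← Φ.norm_map x, PiLp.norm_eq_of_nat 1 (by norm_num)]
    simp
  set U : E := Φ.symm (PiLp.single 1 0 1) with hU
  set V : E := Φ.symm (PiLp.single 1 1 1) with hV
  have hΦU : Φ U = PiLp.single 1 0 1 := by rw [hU, LinearIsometryEquiv.apply_symm_apply]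
  have hΦV : Φ V = PiLp.single 1 1 1 := by rw [hV, LinearIsometryEquiv.apply_symm_apply]
  have hUn : ‖U‖ = 1 := by rw [hnorm, hΦU]; simp
  have hVn : ‖V‖ = 1 := by rw [hnorm, hΦV]; simp
  have hdec : ∀ x : E, x = (Φ x 0) • U + (Φ x 1) • V := by
    intro x
    apply Φ.injective
    rw [map_add, map_smul, map_smul, hΦU, hΦV]
    ext i
    fin_cases i <;> simp
  -- extreme points
  have hext : ∀ u : ℂ, ‖u‖ = 1 → u.re ≤ 0 → Φ (mk 1 u) 0 = 0 ∨ Φ (mk 1 u) 1 = 0 := by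
    intro u hu hre
    by_contra hcon
    push Not at hcon
    obtain ⟨h0, h1⟩ := hcon
    set v0 := Φ (mk 1 u) 0 with hv0
    set v1 := Φ (mk 1 u) 1 with hv1
    have hx1 : ‖mk 1 u‖ ≤ 1 := norm_mk_le (by simp) hu.le (by simpa using hre)
    have hsum : ‖v0‖ + ‖v1‖ = 1 := by
      refine le_antisymm ?_ ?_
      · rw [← hnorm]; exact hx1
      · rw [← hnorm]
        calc (1 : ℝ) = ‖ev q0 (mk 1 u)‖ := by rw [ev_q0]; simp
          _ ≤ _ := ev_le _ _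
    have hp0 : 0 < ‖v0‖ := norm_pos_iff.2 h0
    have hp1 : 0 < ‖v1‖ := norm_pos_iff.2 h1
    obtain ⟨y, hy⟩ : ∃ y : E, y = ((‖v0‖ : ℂ)⁻¹ * v0) • U := ⟨_, rfl⟩
    obtain ⟨z, hz⟩ : ∃ z : E, z = ((‖v1‖ : ℂ)⁻¹ * v1) • V := ⟨_, rfl⟩
    have hyn : ‖y‖ ≤ 1 := by
      rw [hy, norm_smul, hUn, mul_one, norm_mul, norm_inv, Complex.norm_real, norm_norm,
        inv_mul_cancel₀ hp0.ne']
    have hzn : ‖z‖ ≤ 1 := by
      rw [hz, norm_smul, hVn, mul_one, norm_mul, norm_inv, Complex.norm_real, norm_norm,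
        inv_mul_cancel₀ hp1.ne']
    have c0 : (‖v0‖ : ℂ) ≠ 0 := by exact_mod_cast hp0.ne'
    have c1 : (‖v1‖ : ℂ) ≠ 0 := by exact_mod_cast hp1.ne'
    have hxyz : mk 1 u = (‖v0‖ : ℂ) • y + (‖v1‖ : ℂ) • z := by
      rw [hy, hz, smul_smul, smul_smul, mul_inv_cancel_left₀ c0, mul_inv_cancel_left₀ c1]
      exact hdec _
    have hstrict : ∀ φ : Q, ‖ev φ (mk 1 u)‖ = 1 → ev φ y = ev φ z := by
      intro φ hφ
      by_contra hne
      have h3 := norm_combo_lt_of_ne ((ev_le φ y).trans hyn) ((ev_le φ z).trans hzn) hne hp0 hp1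
        hsum
      rw [hxyz, map_add, map_smul, map_smul] at hφ
      rw [Complex.real_smul, Complex.real_smul] at h3
      rw [smul_eq_mul, smul_eq_mul] at hφ
      linarith
    have hyz : y = z := by
      apply ext_q
      · exact hstrict q0 (by rw [ev_q0]; simp)
      · exact hstrict q1 (by rw [ev_q1]; exact hu)
    have h4 := congrArg (fun w => Φ w 0) hyz
    simp only [hy, hz, map_smul, hΦU, hΦV] at h4
    simp at h4
    exact h0 h4
  -- pigeonhole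
  have hpair : ∀ u u' : ℂ, ∀ j k : Fin 2, (∀ w : Fin 2, w = j ∨ w = k) →
      Φ (mk 1 u) j = 0 → Φ (mk 1 u') j = 0 → u = u' := by
    intro u u' j k hjk h h'
    have h1 : Φ (mk 1 u') k • Φ (mk 1 u) = Φ (mk 1 u) k • Φ (mk 1 u') := by
      ext w
      rcases hjk w with rfl | rfl
      · simp [h, h']
      · simp [mul_comm]
    rw [← map_smul, ← map_smul, Φ.injective.eq_iff, smul_mk, smul_mk] at h1
    have e0 := congrArg (ev q0) h1
    have e1 := congrArg (ev q1) h1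
    rw [ev_q0, ev_q0, mul_one, mul_one] at e0
    rw [ev_q1, ev_q1, e0] at e1
    have hne : Φ (mk 1 u) k ≠ 0 := by
      intro hk
      have h2 : Φ (mk 1 u) = 0 := by
        ext w
        rcases hjk w with rfl | rfl
        · simpa using h
        · simpa using hk
      have h5 : mk 1 u = 0 := Φ.injective (h2.trans (map_zero Φ).symm)
      exact one_ne_zero (mk_eq_zero h5).1
    exact mul_left_cancel₀ hne e1
  have k1 : ∀ w : Fin 2, w = 0 ∨ w = 1 := by decide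
  have k2 : ∀ w : Fin 2, w = 1 ∨ w = 0 := by decide
  have n1 : (-1 : ℂ) ≠ Complex.I := by
    intro h; have := congrArg Complex.re h; simp at this
  have n2 : (-1 : ℂ) ≠ -Complex.I := by
    intro h; have := congrArg Complex.re h; simp at this
  have n3 : (Complex.I : ℂ) ≠ -Complex.I := by
    intro h
    have := congrArg Complex.im h
    simp at this
    norm_num at this
  rcases hext (-1) (by simp) (by simp) with a1 | a1 <;>
  rcases hext Complex.I (by simp) (by simp) with a2 | a2 <;>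
  rcases hext (-Complex.I) (by simp) (by simp) with a3 | a3
  · exact n1 (hpair _ _ 0 1 k1 a1 a2)
  · exact n1 (hpair _ _ 0 1 k1 a1 a2)
  · exact n2 (hpair _ _ 0 1 k1 a1 a3)
  · exact n3 (hpair _ _ 1 0 k2 a2 a3)
  · exact n3 (hpair _ _ 0 1 k1 a2 a3)
  · exact n2 (hpair _ _ 1 0 k2 a1 a3)
  · exact n1 (hpair _ _ 1 0 k2 a1 a2)
  · exact n1 (hpair _ _ 1 0 k2 a1 a2)

theorem exists_norm_ev (x : E) : ∃ φ : Q, ‖ev φ x‖ = ‖x‖ := by
  have hc : Continuous fun φ : Q => ‖ev φ x‖ := (incl x).continuous.norm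
  obtain ⟨φ, -, hφ⟩ := isCompact_univ.exists_isMaxOn (⟨q0, trivial⟩ : (Set.univ : Set Q).Nonempty)
    hc.continuousOn
  refine ⟨φ, le_antisymm (ev_le _ _) ?_⟩
  exact norm_le_of (norm_nonneg _) fun ψ => hφ (Set.mem_univ ψ)

theorem ev_add_ev (x : E) (φ1 φ2 : Q) : ∃ φ : Q, ev φ1 x + ev φ2 x =
    (2 * Real.cos (((φ1 : ℝ) - φ2) / 2) : ℝ) * ev φ x ∧ (φ : ℝ) = ((φ1 : ℝ) + φ2) / 2 := by
  obtain ⟨a1, b1⟩ := φ1.2
  obtain ⟨a2, b2⟩ := φ2.2
  refine ⟨⟨((φ1 : ℝ) + φ2) / 2, by linarith, by linarith⟩, ?_, rfl⟩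
  obtain ⟨a, b, rfl⟩ := exists_mk x
  rw [ev_mk, ev_mk, ev_mk]
  have h1 := Real.cos_add_cos (φ1 : ℝ) (φ2 : ℝ)
  have h2 : Real.sin (φ1 : ℝ) + Real.sin (φ2 : ℝ) =
      2 * Real.sin (((φ1 : ℝ) + φ2) / 2) * Real.cos (((φ1 : ℝ) - φ2) / 2) := by
    have e1 := Real.sin_add (((φ1 : ℝ) + φ2) / 2) (((φ1 : ℝ) - φ2) / 2)
    have e2 := Real.sin_sub (((φ1 : ℝ) + φ2) / 2) (((φ1 : ℝ) - φ2) / 2)
    have e3 : ((φ1 : ℝ) + φ2) / 2 + ((φ1 : ℝ) - φ2) / 2 = φ1 := by ring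
    have e4 : ((φ1 : ℝ) + φ2) / 2 - ((φ1 : ℝ) - φ2) / 2 = φ2 := by ring
    rw [e3] at e1
    rw [e4] at e2
    linarith
  have h1' : (Real.cos (φ1 : ℝ) : ℂ) + (Real.cos (φ2 : ℝ) : ℂ) =
      ((2 * Real.cos (((φ1 : ℝ) + φ2) / 2) * Real.cos (((φ1 : ℝ) - φ2) / 2) : ℝ) : ℂ) := by
    rw [← h1, Complex.ofReal_add]
  have h2' : (Real.sin (φ1 : ℝ) : ℂ) + (Real.sin (φ2 : ℝ) : ℂ) =
      ((2 * Real.sin (((φ1 : ℝ) + φ2) / 2) * Real.cos (((φ1 : ℝ) - φ2) / 2) : ℝ) : ℂ) := by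
    rw [← h2, Complex.ofReal_add]
  calc a * (Real.cos (φ1 : ℝ) : ℂ) + b * (Real.sin (φ1 : ℝ) : ℂ) +
        (a * (Real.cos (φ2 : ℝ) : ℂ) + b * (Real.sin (φ2 : ℝ) : ℂ))
      = a * ((Real.cos (φ1 : ℝ) : ℂ) + (Real.cos (φ2 : ℝ) : ℂ)) +
        b * ((Real.sin (φ1 : ℝ) : ℂ) + (Real.sin (φ2 : ℝ) : ℂ)) := by ring
    _ = _ := by
      rw [h1', h2']
      simp only [Complex.ofReal_mul, Complex.ofReal_ofNat]
      ring

theorem not_linf : ¬ Nonempty (E ≃ₗᵢ[ℂ] (Fin 2 → ℂ)) := by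
  rintro ⟨Φ⟩
  set U : E := Φ.symm (Pi.single 0 1) with hU
  set V : E := Φ.symm (Pi.single 1 1) with hV
  have hΦU : Φ U = Pi.single 0 1 := by rw [hU, LinearIsometryEquiv.apply_symm_apply]
  have hΦV : Φ V = Pi.single 1 1 := by rw [hV, LinearIsometryEquiv.apply_symm_apply]
  have hcomb : ∀ α β : ℂ, ‖α‖ = 1 → ‖β‖ = 1 → ‖α • U + β • V‖ ≤ 1 := by
    intro α β hα hβ
    rw [← Φ.norm_map, map_add, map_smul, map_smul, hΦU, hΦV, pi_norm_le_iff_of_nonneg zero_le_one]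
    refine Fin.forall_fin_two.2 ⟨?_, ?_⟩
    · simp [hα]
    · simp [hβ]
  have hs : ∀ i : Fin 2, ‖(Pi.single i (1 : ℂ) : Fin 2 → ℂ)‖ = 1 := by
    intro i
    apply le_antisymm
    · rw [pi_norm_le_iff_of_nonneg zero_le_one]
      intro j
      by_cases h : j = i
      · subst h; simp
      · simp [h]
    · have := norm_le_pi_norm (Pi.single i (1 : ℂ) : Fin 2 → ℂ) i
      simpa using this
  have hUn : ‖U‖ = 1 := by
    rw [← Φ.norm_map, hΦU]; exact hs 0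
  have hVn : ‖V‖ = 1 := by
    rw [← Φ.norm_map, hΦV]; exact hs 1
  have hsum : ∀ φ : Q, ‖ev φ U‖ + ‖ev φ V‖ ≤ 1 := by
    intro φ
    obtain ⟨α, hα, hα'⟩ := RCLike.exists_norm_eq_mul_self (ev φ U)
    obtain ⟨β, hβ, hβ'⟩ := RCLike.exists_norm_eq_mul_self (ev φ V)
    have h1 := (ev_le φ (α • U + β • V)).trans (hcomb α β hα hβ)
    rw [map_add, map_smul, map_smul, smul_eq_mul, smul_eq_mul] at h1
    rw [← hα', ← hβ'] at h1
    have h2 : ‖((‖ev φ U‖ : ℝ) : ℂ) + ((‖ev φ V‖ : ℝ) : ℂ)‖ = ‖ev φ U‖ + ‖ev φ V‖ := by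
      rw [← Complex.ofReal_add, Complex.norm_real, Real.norm_of_nonneg (by positivity)]
    rw [← h2]
    exact h1
  obtain ⟨φ1, h1⟩ := exists_norm_ev U
  obtain ⟨φ2, h2⟩ := exists_norm_ev V
  rw [hUn] at h1
  rw [hVn] at h2
  have hV1 : ev φ1 V = 0 := by
    have := hsum φ1
    rw [h1] at this
    exact norm_le_zero_iff.1 (by linarith)
  have hU2 : ev φ2 U = 0 := by
    have := hsum φ2
    rw [h2] at this
    exact norm_le_zero_iff.1 (by linarith)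
  obtain ⟨φ, e1, f1⟩ := ev_add_ev U φ1 φ2
  obtain ⟨φ', e2, f2⟩ := ev_add_ev V φ1 φ2
  have hφφ : φ' = φ := Subtype.ext (f2.trans f1.symm)
  rw [hφφ] at e2
  rw [hU2, add_zero] at e1
  rw [hV1, zero_add] at e2
  set c : ℝ := Real.cos (((φ1 : ℝ) - φ2) / 2) with hc
  have hc1 : c ≤ 1 := Real.cos_le_one _
  obtain ⟨a1, b1⟩ := φ1.2
  obtain ⟨a2, b2⟩ := φ2.2
  have hc0 : 0 ≤ c := Real.cos_nonneg_of_neg_pi_div_two_le_of_le (by linarith [Real.pi_pos])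
    (by linarith [Real.pi_pos])
  have g1 := congrArg norm e1
  have g2 := congrArg norm e2
  rw [h1, norm_mul, Complex.norm_real, Real.norm_of_nonneg (by positivity)] at g1
  rw [h2, norm_mul, Complex.norm_real, Real.norm_of_nonneg (by positivity)] at g2
  have g3 : 2 = 2 * c * (‖ev φ U‖ + ‖ev φ V‖) := by linarith
  have g4 := hsum φ
  have hceq : c = 1 := by
    have : 2 * c * (‖ev φ U‖ + ‖ev φ V‖) ≤ 2 * c * 1 :=
      mul_le_mul_of_nonneg_left g4 (by positivity)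
    linarith
  have h5 : ((φ1 : ℝ) - φ2) / 2 = 0 := by
    rw [hc] at hceq
    exact (Real.cos_eq_one_iff_of_lt_of_lt (by linarith [Real.pi_pos])
      (by linarith [Real.pi_pos])).1 hceq
  have h6 : φ1 = φ2 := Subtype.ext (by linarith)
  rw [h6, hU2] at h1
  simp at h1

end Pool.Agent.MP2964cc
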